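import Pool.Agent.Q222.PS.Linear

namespace Q222.PS

variable {A Q Γ : Type}

/-- If every transition without head move leads to an accepting state, the machine is realtime. -/
theorem realtime_of {M : PDA A Q Γ}
    (h : ∀ q b γ q' o, (q', false, o) ∈ M.tr q b γ → q' ∈ M.acc) : M.Realtime := by
  refine ⟨2, fun w f _ hf he => ?_⟩
  obtain ⟨u0, o0, h1, ⟨_, h2⟩, _⟩ := hf 0 (by norm_num)
  obtain ⟨u1, o1, h3, ⟨h4, _⟩, _⟩ := hf 1 (by norm_num)
  rcases h2 with ⟨_, h2⟩ | ⟨a, hu, _⟩
  · exact h4 (h _ _ _ _ _ h2)
  · have e1 := congrArg List.length h1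
    have e2 := congrArg List.length h3
    have e3 := congrArg List.length he
    rw [hu] at e1
    simp only [List.length_append, List.length_cons, List.length_nil, Nat.zero_add] at e1 e2
    have e4 : (f (1 + 1)).2.1.length = (f 2).2.1.length := rfl
    omega

/-- Words `a^i` that are pairwise inequivalent show nonregularity. -/
theorem not_regular_of {L : Language A} (u v : ℕ → List A)
    (h1 : ∀ i, 1 ≤ i → u i ++ v i ∈ L) (h2 : ∀ i j, 1 ≤ i → 1 ≤ j → u j ++ v i ∈ L → i = j) :
    ¬ L.IsRegular := by
  intro h
  have hfin := h.finite_range_leftQuotient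
  have hinj : Function.Injective (fun i : ℕ => L.leftQuotient (u (i + 1))) := by
    intro i j hij
    have hm : v (i + 1) ∈ L.leftQuotient (u (i + 1)) := h1 (i + 1) (by omega)
    have hij' : L.leftQuotient (u (i + 1)) = L.leftQuotient (u (j + 1)) := hij
    rw [hij'] at hm
    have := h2 (i + 1) (j + 1) (by omega) (by omega) hm
    omega
  have hinf := Set.infinite_range_of_injective hinj
  apply hinf
  refine hfin.subset ?_
  rintro _ ⟨i, rfl⟩
  exact ⟨_, rfl⟩

/-- States of the machine for `a^n b^n`. -/
inductive S3
  | P
  | R
  | F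

instance : Finite S3 := by
  apply Finite.of_injective (β := Fin 3) (fun s => match s with | .P => 0 | .R => 1 | .F => 2)
  intro a b h
  cases a <;> cases b <;> first | rfl | exact absurd h (by decide)

/-- Transitions of the machine for `a^n b^n` (`true` is `a`). -/
def tr3 : S3 → Option Bool → Option Unit → Set (S3 × Bool × Op Unit)
  | .P, some true, _ => {(.P, true, .push ())}
  | .P, some false, some () => {(.R, true, .pop)}
  | .P, none, none => {(.F, false, .stay)}
  | .R, some false, some () => {(.R, true, .pop)}
  | .R, none, none => {(.F, false, .stay)}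
  | _, _, _ => ∅

/-- The realtime deterministic pushdown automaton for `a^n b^n`. -/
def M3 : PDA Bool S3 Unit where
  start := .P
  univ := ∅
  acc := {.F}
  tr := tr3

theorem M3_strong : M3.Strong id := by
  intro w c hc
  have key : c.2.2.length + c.2.1.length ≤ w.length := by
    induction hc with
    | refl => simp [PDA.init]
    | tail _ hstep ih =>
      rename_i c d _
      obtain ⟨q, y, s⟩ := c
      obtain ⟨q', y', s'⟩ := d
      obtain ⟨u, o, e1, ⟨_, hm⟩, e2⟩ := hstep
      simp only at e1 e2 hm ih ⊢
      subst e1 e2
      rw [List.length_append] at ih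
      cases o with
      | stay => simp only [Op.app]; omega
      | pop => simp only [Op.app, List.length_tail]; omega
      | push g =>
        simp only [Op.app, List.length_cons]
        rcases hm with ⟨_, hm⟩ | ⟨a, hu, _⟩
        · exfalso
          have : (q', false, Op.push g) ∈ tr3 q y'.head? s.head? := hm
          revert this
          rcases q with _ | _ | _ <;> rcases y'.head? with _ | (_ | _) <;>
            rcases s.head? with _ | _ <;> simp [tr3]
        · rw [hu] at ih
          simp only [List.length_cons, List.length_nil] at ih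
          omega
  show c.2.2.length ≤ w.length
  omega

theorem M3_realtime : M3.Realtime := by
  apply realtime_of
  intro q b γ q' o h
  have h' : (q', false, o) ∈ tr3 q b γ := h
  have : q' = S3.F := by
    revert h'
    rcases q with _ | _ | _ <;> rcases b with _ | (_ | _) <;> rcases γ with _ | _ <;>
      simp [tr3] <;> (intro h _; exact h)
  exact this

theorem M3_acc_cons {q : S3} (hq : q ≠ .F) (a : Bool) (y : List Bool) (s : List Unit)
    (hst : ∀ γ, ∀ p ∈ tr3 q (some a) γ, p.2.1 = true) :
    M3.Acc (q, a :: y, s) ↔ ∃ p ∈ tr3 q (some a) s.head?, M3.Acc (p.1, y, p.2.2.app s) := by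
  constructor
  · intro h
    cases h with
    | acc _ h1 => exact absurd h1 hq
    | un _ h1 => exact absurd h1 (Set.notMem_empty _)
    | ex _ c' h1 h2 h3 =>
      obtain ⟨q', y', s'⟩ := c'
      obtain ⟨u, o, e1, ⟨_, hm⟩, e2⟩ := h2
      simp only at e1 e2 hm
      rcases hm with ⟨hu, hm⟩ | ⟨b, hu, hm⟩
      · exfalso
        subst hu
        have e3 : y' = a :: y := e1.symm
        rw [e3] at hm
        have := hst _ _ hm
        simp at this
      · subst hu
        have e3 : a :: y = b :: y' := e1
        obtain ⟨rfl, rfl⟩ := List.cons.inj e3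
        subst e2
        exact ⟨_, hm, h3⟩
  · rintro ⟨⟨q', m, o⟩, hp, hacc⟩
    have hm := hst _ _ hp
    simp only at hm
    subst hm
    refine .ex _ (q', y, o.app s) (Set.notMem_empty _) ⟨[a], o, rfl, ⟨hq, Or.inr ⟨a, rfl, hp⟩⟩, rfl⟩ hacc

theorem M3_acc_nil {q : S3} (hq : q ≠ .F) (s : List Unit) :
    M3.Acc (q, [], s) ↔ s = [] := by
  constructor
  · intro h
    cases h with
    | acc _ h1 => exact absurd h1 hq
    | un _ h1 => exact absurd h1 (Set.notMem_empty _)
    | ex _ c' h1 h2 h3 =>
      obtain ⟨q', y', s'⟩ := c'
      obtain ⟨u, o, e1, ⟨_, hm⟩, e2⟩ := h2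
      simp only at e1 e2 hm
      have e3 : u = [] ∧ y' = [] := by simpa using e1.symm
      obtain ⟨rfl, rfl⟩ := e3
      rcases hm with ⟨_, hm⟩ | ⟨b, hu, _⟩
      · have h' : (q', false, o) ∈ tr3 q none s.head? := hm
        cases s with
        | nil => rfl
        | cons g s => rcases q with _ | _ | _ <;> simp [tr3] at h'
      · simp at hu
  · rintro rfl
    refine .ex _ (.F, [], []) (Set.notMem_empty _) ⟨[], .stay, rfl, ⟨hq, Or.inl ⟨rfl, ?_⟩⟩, rfl⟩ (.acc _ rfl)
    rcases q with _ | _ | _
    · exact rfl
    · exact rfl
    · exact absurd rfl hq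

theorem M3_R (i : ℕ) : ∀ s : List Unit, M3.Acc (.R, List.replicate i false, s) ↔ s.length = i := by
  induction i with
  | zero => intro s; rw [List.replicate_zero, M3_acc_nil (by simp)]; simp
  | succ i ih =>
    intro s
    rw [List.replicate_succ, M3_acc_cons (by simp)]
    · cases s with
      | nil => simp [tr3]
      | cons g s => simp [tr3, Op.app, ih]
    · intro γ p hp
      rcases γ with _ | _ <;> simp [tr3] at hp
      rw [hp]

theorem M3_P (i : ℕ) (s : List Unit) : M3.Acc (.P, List.replicate i false, s) ↔ s.length = i := by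
  cases i with
  | zero => rw [List.replicate_zero, M3_acc_nil (by simp)]; simp
  | succ i =>
    rw [List.replicate_succ, M3_acc_cons (by simp)]
    · cases s with
      | nil => simp [tr3]
      | cons g s => simp [tr3, Op.app, M3_R]
    · intro γ p hp
      rcases γ with _ | _ <;> simp [tr3] at hp
      rw [hp]

theorem M3_Pa (j : ℕ) (y : List Bool) : ∀ s : List Unit,
    M3.Acc (.P, List.replicate j true ++ y, s) ↔ M3.Acc (.P, y, List.replicate j () ++ s) := by
  induction j with
  | zero => intro s; rfl
  | succ j ih =>
    intro s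
    rw [List.replicate_succ, List.cons_append, M3_acc_cons (by simp)]
    · have e : List.replicate (j + 1) () ++ s = List.replicate j () ++ (() :: s) := by
        rw [List.replicate_succ', List.append_assoc]; rfl
      rw [e]
      simp [tr3, Op.app, ih]
    · intro γ p hp
      simp only [tr3, Set.mem_singleton_iff] at hp
      rw [hp]

theorem M3_nonregular : ¬ M3.lang.IsRegular := by
  have key : ∀ i j, List.replicate j true ++ List.replicate i false ∈ M3.lang ↔ j = i := by
    intro i j
    show M3.Acc (.P, List.replicate j true ++ List.replicate i false, []) ↔ _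
    rw [M3_Pa, M3_P]
    simp
  apply not_regular_of (fun i => List.replicate i true) (fun i => List.replicate i false)
  · intro i _; exact (key i i).2 rfl
  · intro i j _ _ h; exact ((key i j).1 h).symm

end Q222.PS
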