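import Pool.Agent.Q222.PS.Short

namespace Q222.PS

variable {A Q Γ : Type}

theorem bound_of_littleO {s : ℕ → ℕ} (ho : LittleO s id) (D : ℕ) :
    ∃ B, ∀ h n, n ≤ 2 * (D + 1) * (h + 1) → h ≤ s n → h ≤ B := by
  obtain ⟨n0, hn0⟩ := Filter.eventually_atTop.1 (ho (4 * (D + 1)))
  refine ⟨max ((Finset.range n0).sup s) 1, fun h n hn hs => ?_⟩
  rcases Nat.lt_or_ge n n0 with hlt | hge
  · exact le_trans (hs.trans (Finset.le_sup (f := s) (Finset.mem_range.2 hlt))) (le_max_left _ _)
  · refine le_trans ?_ (le_max_right _ _)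
    have h1 : 4 * (D + 1) * s n ≤ n := hn0 n hge
    have h2 : 4 * (D + 1) * h ≤ 4 * (D + 1) * s n := Nat.mul_le_mul_left _ hs
    have h3 : 4 * (D + 1) * h ≤ 2 * (D + 1) * (h + 1) := h2.trans (h1.trans hn)
    by_contra hcon
    have h4 : 2 ≤ h := by omega
    nlinarith

theorem lang_eq_of_bound {M : PDA A Q Γ} {B : ℕ}
    (h : ∀ w ∈ M.lang, M.AccIn B (M.init w)) : M.lang = langIn M B := by
  ext w
  exact ⟨h w, fun hw => PDA.AccIn.toAcc hw⟩

/-- Strong space `o(n)` gives only regular languages. -/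
theorem strong_regular [Finite A] [Finite Q] [Finite Γ] (M : PDA A Q Γ) (s : ℕ → ℕ)
    (hs : M.Strong s) (ho : LittleO s id) : M.lang.IsRegular := by
  obtain ⟨D, hD, -⟩ := exists_D M
  obtain ⟨B, hB⟩ := bound_of_littleO ho D
  have key : ∀ w c, M.Reach (M.init w) c → c.2.2.length ≤ B := by
    intro w c hc
    obtain ⟨x, h1, h2⟩ := short_up hD _ _ _ (upC_of_reach hc)
    have h3 := h2 (c.2.1.take 1) (by cases c.2.1 <;> simp)
    have h4 := hs _ _ h3
    refine hB _ _ ?_ h4
    have h5 : (c.2.1.take 1).length ≤ 1 := by simp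
    rw [List.length_append]
    nlinarith
  rw [lang_eq_of_bound (B := B) fun w hw => PDA.Acc.toAccIn hw (key w)]
  exact langIn_regular M B

theorem acc_iff_reach {M : PDA A Q Γ} (hu : M.univ = ∅) {c : Cfg A Q Γ} :
    M.Acc c ↔ ∃ d, M.Reach c d ∧ d.1 ∈ M.acc := by
  constructor
  · intro h
    induction h with
    | acc c h1 => exact ⟨c, .refl, h1⟩
    | ex c c' h1 h3 h4 ih =>
      obtain ⟨d, h5, h6⟩ := ih
      exact ⟨d, Relation.ReflTransGen.head h3 h5, h6⟩
    | un c h1 => rw [hu] at h1; exact absurd h1 (Set.notMem_empty _)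
  · rintro ⟨d, h1, h2⟩
    induction h1 using Relation.ReflTransGen.head_induction_on with
    | refl => exact .acc _ h2
    | head hstep _ ih => exact .ex _ _ (by rw [hu]; exact Set.notMem_empty _) hstep ih

theorem accIn_of_path {M : PDA A Q Γ} (hu : M.univ = ∅) {B : ℕ} {c d : Cfg A Q Γ}
    (h : M.Reach c d) (hd : d.1 ∈ M.acc)
    (hB : ∀ c', M.Reach c c' → M.Reach c' d → c'.2.2.length ≤ B) : M.AccIn B c := by
  induction h using Relation.ReflTransGen.head_induction_on with
  | refl => exact .acc _ hd (hB _ .refl .refl)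
  | head hstep hr ih =>
    refine .ex _ _ (by rw [hu]; exact Set.notMem_empty _) (hB _ .refl
      (Relation.ReflTransGen.head hstep hr)) hstep (ih fun c' h1 h2 => ?_)
    exact hB c' (Relation.ReflTransGen.head hstep h1) h2

/-- Middle space `o(n)` gives only regular languages for nondeterministic machines. -/
theorem middle_regular [Finite A] [Finite Q] [Finite Γ] (M : PDA A Q Γ) (hu : M.univ = ∅)
    (s : ℕ → ℕ) (hs : M.Middle s) (ho : LittleO s id) : M.lang.IsRegular := by
  obtain ⟨D, hD, hD2⟩ := exists_D M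
  obtain ⟨B, hB⟩ := bound_of_littleO ho D
  have key : ∀ w c d, M.Reach (M.init w) c → M.Reach c d → d.1 ∈ M.acc → c.2.2.length ≤ B := by
    intro w c d h1 h2 h3
    obtain ⟨x, h4, h5⟩ := short_up hD _ _ _ (upC_of_reach h1)
    obtain ⟨y', h6, h7, e, h8, h9⟩ := short_dn hD hD2 _ _ _ (dnC_of_reach h2 h3)
    have h10 := h5 y' h7
    have hw : x ++ y' ∈ M.lang := (acc_iff_reach hu).2 ⟨e, h10.trans h8, h9⟩
    have h11 := hs _ hw _ h10
    refine hB _ _ ?_ h11
    rw [List.length_append]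
    nlinarith
  rw [lang_eq_of_bound (B := B) fun w hw => ?_]
  · exact langIn_regular M B
  · obtain ⟨d, h1, h2⟩ := (acc_iff_reach hu).1 hw
    exact accIn_of_path hu h1 h2 fun c' h3 h4 => key w c' d h3 h4 h2

end Q222.PS
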