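import Pool.Agent.Q222.PS.Univ

namespace Q222.PS

/-- Data of a cell: the bit, the carry into this position, flags for: label all zero (start of a
block), label all one, first block, all bits of the block up to here are one. -/
@[ext]
structure Fld where
  /-- bit -/
  bit : Bool
  /-- carry -/
  cy : Bool
  /-- label zero -/
  z : Bool
  /-- label all one -/
  o : Bool
  /-- first block -/
  fb : Bool
  /-- all ones so far -/
  ao : Bool

instance : Finite Fld :=
  Finite.of_injective (β := Bool × Bool × Bool × Bool × Bool × Bool)
    (fun f => (f.bit, f.cy, f.z, f.o, f.fb, f.ao)) (by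
      intro a b h
      simp only [Prod.mk.injEq] at h
      obtain ⟨h1, h2, h3, h4, h5, h6⟩ := h
      exact Fld.ext h1 h2 h3 h4 h5 h6)

/-- Input letters: header of a cell, digit of the label, digit of the reversed label. -/
inductive Let
  | hd (f : Fld)
  | l (d : Bool)
  | r (d : Bool)

instance : Finite Let :=
  Finite.of_injective (β := Fld ⊕ Bool ⊕ Bool)
    (fun a => match a with | .hd f => .inl f | .l d => .inr (.inl d) | .r d => .inr (.inr d)) (by
      intro a b h
      cases a <;> cases b <;> simp_all)

/-- States. -/
inductive St
  | init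
  | mH (f : Fld)
  | mL (f : Fld)
  | mR (f : Fld)
  | pal
  | suc
  | sC (z c : Bool)
  | vP (e : Bool)
  | v0 (e : Bool)
  | v1 (e : Bool)
  | cmp
  | fin

instance : Finite St :=
  Finite.of_injective (β := Fin 12 × (Unit ⊕ Fld ⊕ (Bool × Bool)))
    (fun a => match a with
      | .init => (0, .inl ())
      | .mH f => (1, .inr (.inl f))
      | .mL f => (2, .inr (.inl f))
      | .mR f => (3, .inr (.inl f))
      | .pal => (4, .inl ())
      | .suc => (5, .inl ())
      | .sC z c => (6, .inr (.inr (z, c)))
      | .vP e => (7, .inr (.inr (e, e)))
      | .v0 e => (8, .inr (.inr (e, e)))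
      | .v1 e => (9, .inr (.inr (e, e)))
      | .cmp => (10, .inl ())
      | .fin => (11, .inl ())) (by
      intro a b h
      cases a <;> cases b <;> simp_all)

/-- Local conditions on a header. -/
def Loc (g : Fld) : Bool := (!g.fb || !g.bit) && (!g.z || g.cy)

/-- Condition on the first header. -/
def First (g : Fld) : Bool := g.z && g.fb && (g.ao == g.bit) && Loc g

/-- Condition on consecutive headers. -/
def Next (f g : Fld) : Bool :=
  (g.z || (g.cy == (f.cy && f.bit))) && (g.fb == (f.fb && !g.z)) &&
    (g.ao == ((g.z || f.ao) && g.bit)) && Loc g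

/-- Condition on digits of the label. -/
def Dig (f : Fld) (d : Bool) : Bool := (!f.o || d) && (!f.z || !d)

/-- Branches started after the header `g`. -/
def br (g : Fld) : List (St × Op Bool) :=
  [(.mH g, .stay), (.pal, .stay), (.suc, .stay), (.vP (xor g.bit g.cy), .stay)]

/-- Vertical comparison at the header `g`. -/
def spawn (e : Bool) (g : Fld) : List (St × Op Bool) :=
  if g.bit = e then [(.v1 e, .stay)] else [(.v1 e, .stay), (.cmp, .stay)]

/-- Transitions on a letter. -/
def del : St → Let → Option Bool → List (St × Op Bool)
  | .init, .hd g, _ => if First g then br g else []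
  | .mH f, .l d, _ => if Dig f d then [(.mL f, .stay)] else []
  | .mL f, .l d, _ => if Dig f d then [(.mL f, .stay)] else []
  | .mL f, .r _, _ => [(.mR f, .stay)]
  | .mR f, .r _, _ => [(.mR f, .stay)]
  | .mR f, .hd g, _ => if Next f g then br g else []
  | .pal, .l d, _ => [(.pal, .push d)]
  | .pal, .r d, some g => if g = d then [(.pal, .pop)] else []
  | .pal, .hd _, none => [(.fin, .stay)]
  | .suc, .l _, _ => [(.suc, .stay)]
  | .suc, .r d, _ => [(.suc, .push d)]
  | .suc, .hd g, _ => [(.sC g.z true, .stay)]
  | .sC z c, .l d, some g => if d = xor g c then [(.sC z (g && c), .pop)] else []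
  | .sC z c, .r _, none => if z = c then [(.fin, .stay)] else []
  | .vP e, .l d, _ => [(.vP e, .push d)]
  | .vP e, .r _, _ => [(.v0 e, .stay)]
  | .v0 e, .l _, _ => [(.v0 e, .stay)]
  | .v0 e, .r _, _ => [(.v0 e, .stay)]
  | .v0 e, .hd g, _ => if g.z then spawn e g else [(.v0 e, .stay)]
  | .v1 e, .l _, _ => [(.v1 e, .stay)]
  | .v1 e, .r _, _ => [(.v1 e, .stay)]
  | .v1 e, .hd g, _ => if g.z then [(.fin, .stay)] else spawn e g
  | .cmp, .l _, _ => [(.cmp, .stay)]
  | .cmp, .r d, some g => if g = d then [(.cmp, .pop)] else [(.fin, .stay)]
  | .cmp, .r _, none => [(.fin, .stay)]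
  | .cmp, .hd _, some _ => [(.fin, .stay)]
  | _, _, _ => []

/-- Decision at the endmarker. -/
def eps : St → Option Bool → Bool
  | .mR f, _ => f.o && f.ao
  | .pal, none => true
  | .suc, _ => true
  | .v0 _, _ => true
  | .v1 _, _ => true
  | .cmp, some _ => true
  | _, _ => false

/-- The machine. -/
def LL : PDA Let St Bool := umach .init .fin del eps

/-- A cell. -/
structure Cell where
  /-- header -/
  f : Fld
  /-- label, least significant digit first -/
  x : List Bool
  /-- second part -/
  r : List Bool

/-- Letters of a cell after the header. -/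
def Cell.body (c : Cell) : List Let := c.x.map .l ++ c.r.map .r

/-- Word of a list of cells. -/
def flat : List Cell → List Let
  | [] => []
  | c :: cs => .hd c.f :: (c.body ++ flat cs)

/-! ### The palindrome branch -/

theorem pal_r (r s : List Bool) (y : List Let) : LL.Acc (.pal, r.map .r ++ y, s) ↔
    ∃ t, s = r ++ t ∧ LL.Acc (.pal, y, t) := by
  induction r generalizing s with
  | nil => simp
  | cons d r ih =>
    rw [List.map_cons, List.cons_append, LL, umach_acc_cons (by simp)]
    cases s with
    | nil => simp [del]
    | cons g s =>
      by_cases h : g = d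
      · subst h
        simp only [del, List.head?_cons, if_true, ne_eq, List.cons_ne_nil, not_false_eq_true,
          List.mem_singleton, forall_eq, true_and, Op.app, List.tail_cons]
        rw [← LL, ih]
        simp
      · simp [del, h]

theorem pal_l (x s : List Bool) (y : List Let) : LL.Acc (.pal, x.map .l ++ y, s) ↔
    LL.Acc (.pal, y, x.reverse ++ s) := by
  induction x generalizing s with
  | nil => simp
  | cons d x ih =>
    rw [List.map_cons, List.cons_append, LL, umach_acc_cons (by simp)]
    simp only [del, ne_eq, List.cons_ne_nil, not_false_eq_true, List.mem_singleton, forall_eq,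
      true_and, Op.app]
    rw [← LL, ih]
    simp

theorem pal_end (cs : List Cell) (t : List Bool) : LL.Acc (.pal, flat cs, t) ↔ t = [] := by
  cases cs with
  | nil =>
    rw [flat, LL, umach_acc_nil (by simp)]
    cases t <;> simp [eps]
  | cons c cs =>
    rw [flat, LL, umach_acc_cons (by simp)]
    cases t with
    | nil =>
      simp only [del, List.head?_nil, ne_eq, List.cons_ne_nil, not_false_eq_true,
        List.mem_singleton, forall_eq, true_and]
      simp only [iff_true]
      exact umach_acc_F _ _
    | cons g t => simp [del]

/-- The palindrome branch accepts exactly when the second part is the reversed label. -/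
theorem pal_iff (c : Cell) (cs : List Cell) :
    LL.Acc (.pal, c.body ++ flat cs, []) ↔ c.r = c.x.reverse := by
  rw [Cell.body, List.append_assoc, pal_l, pal_r, List.append_nil]
  constructor
  · rintro ⟨t, h1, h2⟩
    rw [(pal_end cs t).1 h2, List.append_nil] at h1
    exact h1.symm
  · intro h
    exact ⟨[], by rw [h, List.append_nil], (pal_end cs []).2 rfl⟩

/-! ### The successor branch -/

/-- Binary increment, least significant digit first. -/
def inc : List Bool → Bool → List Bool × Bool
  | [], c => ([], c)
  | g :: x, c => (xor g c :: (inc x (g && c)).1, (inc x (g && c)).2)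

theorem suc_l (x s : List Bool) (y : List Let) : LL.Acc (.suc, x.map .l ++ y, s) ↔
    LL.Acc (.suc, y, s) := by
  induction x generalizing s with
  | nil => simp
  | cons d x ih =>
    rw [List.map_cons, List.cons_append, LL, umach_acc_cons (by simp)]
    simp only [del, ne_eq, List.cons_ne_nil, not_false_eq_true, List.mem_singleton, forall_eq,
      true_and, Op.app]
    rw [← LL, ih]

theorem suc_r (x s : List Bool) (y : List Let) : LL.Acc (.suc, x.map .r ++ y, s) ↔
    LL.Acc (.suc, y, x.reverse ++ s) := by
  induction x generalizing s with
  | nil => simp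
  | cons d x ih =>
    rw [List.map_cons, List.cons_append, LL, umach_acc_cons (by simp)]
    simp only [del, ne_eq, List.cons_ne_nil, not_false_eq_true, List.mem_singleton, forall_eq,
      true_and, Op.app]
    rw [← LL, ih]
    simp

theorem sC_l (x : List Bool) (d : Bool) (y : List Let) (z : Bool) : ∀ (s : List Bool) (c : Bool),
    LL.Acc (.sC z c, x.map .l ++ (.r d :: y), s) ↔ inc s c = (x, z) := by
  induction x with
  | nil =>
    intro s c
    rw [List.map_nil, List.nil_append, LL, umach_acc_cons (by simp)]
    cases s with
    | nil =>
      by_cases h : z = c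
      · subst h
        simp only [del, List.head?_nil, if_true, ne_eq, List.cons_ne_nil, not_false_eq_true,
          List.mem_singleton, forall_eq, true_and, inc, iff_true]
        exact umach_acc_F _ _
      · simp [del, h, inc, Ne.symm h]
    | cons g s => simp [del, inc]
  | cons e x ih =>
    intro s c
    rw [List.map_cons, List.cons_append, LL, umach_acc_cons (by simp)]
    cases s with
    | nil => simp [del, inc]
    | cons g s =>
      by_cases h : e = xor g c
      · subst h
        simp only [del, List.head?_cons, if_true, ne_eq, List.cons_ne_nil, not_false_eq_true,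
          List.mem_singleton, forall_eq, true_and, Op.app, List.tail_cons]
        rw [← LL, ih]
        simp [inc, Prod.ext_iff]
      · simp only [del, List.head?_cons, if_neg h, ne_eq, not_true_eq_false, List.not_mem_nil,
          false_and, false_iff]
        intro h2
        simp only [inc, Prod.mk.injEq, List.cons.injEq] at h2
        exact h h2.1.1.symm

/-- The successor branch. -/
theorem suc_iff (c c' : Cell) (cs : List Cell) (hr : c'.r ≠ []) :
    LL.Acc (.suc, c.body ++ flat (c' :: cs), []) ↔ inc c.r.reverse true = (c'.x, c'.f.z) := by
  rw [Cell.body, List.append_assoc, suc_l, suc_r, List.append_nil, flat, LL,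
    umach_acc_cons (by simp)]
  simp only [del, ne_eq, List.cons_ne_nil, not_false_eq_true, List.mem_singleton, forall_eq,
    true_and, Op.app]
  obtain ⟨d, r, hd⟩ := List.exists_cons_of_ne_nil hr
  rw [← LL, Cell.body, List.append_assoc, hd, List.map_cons, List.cons_append, sC_l]

theorem suc_last (c : Cell) : LL.Acc (.suc, c.body ++ flat [], []) := by
  rw [Cell.body, List.append_assoc, suc_l, suc_r, flat, LL, umach_acc_nil (by simp)]
  rfl

/-! ### The vertical branch -/

theorem vP_l (e : Bool) (x s : List Bool) (y : List Let) : LL.Acc (.vP e, x.map .l ++ y, s) ↔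
    LL.Acc (.vP e, y, x.reverse ++ s) := by
  induction x generalizing s with
  | nil => simp
  | cons d x ih =>
    rw [List.map_cons, List.cons_append, LL, umach_acc_cons (by simp)]
    simp only [del, ne_eq, List.cons_ne_nil, not_false_eq_true, List.mem_singleton, forall_eq,
      true_and, Op.app]
    rw [← LL, ih]
    simp

theorem v0_r (e : Bool) (x s : List Bool) (y : List Let) : LL.Acc (.v0 e, x.map .r ++ y, s) ↔
    LL.Acc (.v0 e, y, s) := by
  induction x with
  | nil => simp
  | cons d x ih =>
    rw [List.map_cons, List.cons_append, LL, umach_acc_cons (by simp)]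
    simp only [del, ne_eq, List.cons_ne_nil, not_false_eq_true, List.mem_singleton, forall_eq,
      true_and, Op.app]
    rw [← LL, ih]

theorem v0_l (e : Bool) (x s : List Bool) (y : List Let) : LL.Acc (.v0 e, x.map .l ++ y, s) ↔
    LL.Acc (.v0 e, y, s) := by
  induction x with
  | nil => simp
  | cons d x ih =>
    rw [List.map_cons, List.cons_append, LL, umach_acc_cons (by simp)]
    simp only [del, ne_eq, List.cons_ne_nil, not_false_eq_true, List.mem_singleton, forall_eq,
      true_and, Op.app]
    rw [← LL, ih]

theorem v1_r (e : Bool) (x s : List Bool) (y : List Let) : LL.Acc (.v1 e, x.map .r ++ y, s) ↔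
    LL.Acc (.v1 e, y, s) := by
  induction x with
  | nil => simp
  | cons d x ih =>
    rw [List.map_cons, List.cons_append, LL, umach_acc_cons (by simp)]
    simp only [del, ne_eq, List.cons_ne_nil, not_false_eq_true, List.mem_singleton, forall_eq,
      true_and, Op.app]
    rw [← LL, ih]

theorem v1_l (e : Bool) (x s : List Bool) (y : List Let) : LL.Acc (.v1 e, x.map .l ++ y, s) ↔
    LL.Acc (.v1 e, y, s) := by
  induction x with
  | nil => simp
  | cons d x ih =>
    rw [List.map_cons, List.cons_append, LL, umach_acc_cons (by simp)]
    simp only [del, ne_eq, List.cons_ne_nil, not_false_eq_true, List.mem_singleton, forall_eq,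
      true_and, Op.app]
    rw [← LL, ih]

theorem cmp_l (x s : List Bool) (y : List Let) : LL.Acc (.cmp, x.map .l ++ y, s) ↔
    LL.Acc (.cmp, y, s) := by
  induction x with
  | nil => simp
  | cons d x ih =>
    rw [List.map_cons, List.cons_append, LL, umach_acc_cons (by simp)]
    simp only [del, ne_eq, List.cons_ne_nil, not_false_eq_true, List.mem_singleton, forall_eq,
      true_and, Op.app]
    rw [← LL, ih]

theorem cmp_r (r : List Bool) (cs : List Cell) : ∀ s : List Bool,
    LL.Acc (.cmp, r.map .r ++ flat cs, s) ↔ r ≠ s := by
  induction r with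
  | nil =>
    intro s
    rw [List.map_nil, List.nil_append]
    cases cs with
    | nil =>
      rw [flat, LL, umach_acc_nil (by simp)]
      cases s <;> simp [eps]
    | cons c cs =>
      rw [flat, LL, umach_acc_cons (by simp)]
      cases s with
      | nil => simp [del]
      | cons g s =>
        simp only [del, List.head?_cons, ne_eq, List.cons_ne_nil, not_false_eq_true,
          List.mem_singleton, forall_eq, true_and]
        constructor
        · intro _ h; exact absurd h (by simp)
        · intro _; exact umach_acc_F _ _
  | cons d r ih =>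
    intro s
    rw [List.map_cons, List.cons_append, LL, umach_acc_cons (by simp)]
    cases s with
    | nil =>
      simp only [del, List.head?_nil, ne_eq, List.cons_ne_nil, not_false_eq_true,
        List.mem_singleton, forall_eq, true_and, iff_true]
      exact umach_acc_F _ _
    | cons g s =>
      by_cases h : g = d
      · subst h
        simp only [del, List.head?_cons, if_true, ne_eq, List.cons_ne_nil, not_false_eq_true,
          List.mem_singleton, forall_eq, true_and, Op.app, List.tail_cons]
        rw [← LL, ih]
        simp
      · simp only [del, List.head?_cons, if_neg h, ne_eq, List.cons_ne_nil, not_false_eq_true,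
          List.mem_singleton, forall_eq, true_and]
        constructor
        · intro _ h2; exact h (List.cons.inj h2).1.symm
        · intro _; exact umach_acc_F _ _

/-- The condition checked at one cell of the next block. -/
def Chk (e : Bool) (X : List Bool) (c : Cell) : Prop := c.f.bit ≠ e → c.r ≠ X

mutual
/-- Vertical condition before the next block has started. -/
def V0 (e : Bool) (X : List Bool) : List Cell → Prop
  | [] => True
  | c :: cs => if c.f.z = true then Chk e X c ∧ V1 e X cs else V0 e X cs
/-- Vertical condition inside the next block. -/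
def V1 (e : Bool) (X : List Bool) : List Cell → Prop
  | [] => True
  | c :: cs => if c.f.z = true then True else Chk e X c ∧ V1 e X cs
end

theorem spawn_iff (e : Bool) (X : List Bool) (c : Cell) (cs : List Cell) :
    (spawn e c.f ≠ [] ∧ ∀ r ∈ spawn e c.f, LL.Acc (r.1, c.body ++ flat cs, r.2.app X)) ↔
      Chk e X c ∧ LL.Acc (.v1 e, flat cs, X) := by
  by_cases h : c.f.bit = e
  · have hs : spawn e c.f = [(.v1 e, .stay)] := if_pos h
    have hc : Chk e X c := fun h' => absurd h h'
    rw [hs]
    simp only [ne_eq, List.cons_ne_nil, not_false_eq_true, List.mem_singleton, forall_eq,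
      true_and, Op.app, hc]
    rw [Cell.body, List.append_assoc, v1_l, v1_r]
  · have hs : spawn e c.f = [(.v1 e, .stay), (.cmp, .stay)] := if_neg h
    have hc : Chk e X c ↔ c.r ≠ X := ⟨fun H => H h, fun H _ => H⟩
    rw [hs, hc]
    simp only [ne_eq, List.cons_ne_nil, not_false_eq_true, List.mem_cons,
      List.not_mem_nil, or_false, forall_eq_or_imp, forall_eq, true_and, Op.app]
    rw [Cell.body, List.append_assoc, v1_l, v1_r, cmp_l, cmp_r]
    exact and_comm

theorem v1_iff (e : Bool) (X : List Bool) (cs : List Cell) :
    LL.Acc (.v1 e, flat cs, X) ↔ V1 e X cs := by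
  induction cs with
  | nil =>
    rw [flat, LL, umach_acc_nil (by simp)]
    simp [eps, V1]
  | cons c cs ih =>
    rw [flat, LL, umach_acc_cons (by simp), V1]
    by_cases h : c.f.z = true
    · simp only [del, h, if_true, ne_eq, List.cons_ne_nil, not_false_eq_true, List.mem_singleton,
        forall_eq, true_and, iff_true]
      exact umach_acc_F _ _
    · simp only [del, if_neg h]
      rw [← LL, spawn_iff, ih]

theorem v0_iff (e : Bool) (X : List Bool) (cs : List Cell) :
    LL.Acc (.v0 e, flat cs, X) ↔ V0 e X cs := by
  induction cs with
  | nil =>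
    rw [flat, LL, umach_acc_nil (by simp)]
    simp [eps, V0]
  | cons c cs ih =>
    rw [flat, LL, umach_acc_cons (by simp), V0]
    by_cases h : c.f.z = true
    · simp only [del, if_pos h]
      rw [← LL, spawn_iff, v1_iff]
    · simp only [del, if_neg h, ne_eq, List.cons_ne_nil, not_false_eq_true, List.mem_singleton,
        forall_eq, true_and, Op.app]
      rw [← LL, Cell.body, List.append_assoc, v0_l, v0_r, ih]

/-- The vertical branch. -/
theorem ver_iff (e : Bool) (c : Cell) (cs : List Cell) (hr : c.r ≠ []) :
    LL.Acc (.vP e, c.body ++ flat cs, []) ↔ V0 e c.x.reverse cs := by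
  obtain ⟨d, r, hd⟩ := List.exists_cons_of_ne_nil hr
  rw [Cell.body, List.append_assoc, vP_l, List.append_nil, hd, List.map_cons, List.cons_append, LL,
    umach_acc_cons (by simp)]
  simp only [del, ne_eq, List.cons_ne_nil, not_false_eq_true, List.mem_singleton, forall_eq,
    true_and, Op.app]
  rw [← LL, v0_r, v0_iff]

end Q222.PS
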