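import Mathlib

namespace Q222.PS

/-- Pushdown operations. -/
inductive Op (Γ : Type)
  | push (g : Γ)
  | pop
  | stay

/-- Effect on the store (top symbol first). Popping the empty store leaves it empty. -/
def Op.app {Γ : Type} : Op Γ → List Γ → List Γ
  | .push g, s => g :: s
  | .pop, s => s.tail
  | .stay, s => s

/-- An alternating one-way pushdown automaton with input alphabet `A`, states `Q`, store alphabet
`Γ`. A transition may depend on the state, the scanned symbol (`none` is the right endmarker) and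
the top store symbol (`none` means that the store is empty); it gives the new state, a flag that
says whether the input head moves one cell to the right, and a store operation. -/
structure PDA (A Q Γ : Type) where
  /-- initial state -/
  start : Q
  /-- universal states (the others are existential) -/
  univ : Set Q
  /-- accepting (halting) states -/
  acc : Set Q
  /-- transitions -/
  tr : Q → Option A → Option Γ → Set (Q × Bool × Op Γ)

/-- Configurations: state, remaining input (starting with the scanned symbol), store. -/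
abbrev Cfg (A Q Γ : Type) : Type := Q × List A × List Γ

variable {A Q Γ : Type}

/-- `M.Mv q u b γ q' o`: in state `q` with top symbol `γ` the machine can go to `q'` with store
operation `o` while consuming the word `u` (empty or one letter), where `b` is the symbol scanned
after the step. -/
def PDA.Mv (M : PDA A Q Γ) (q : Q) (u : List A) (b : Option A) (γ : Option Γ) (q' : Q) (o : Op Γ) :
    Prop :=
  q ∉ M.acc ∧ ((u = [] ∧ (q', false, o) ∈ M.tr q b γ) ∨
    ∃ a, u = [a] ∧ (q', true, o) ∈ M.tr q (some a) γ)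

/-- One step. The head can only move if it scans a letter (not the endmarker). Accepting states
halt. -/
def PDA.Step (M : PDA A Q Γ) (c c' : Cfg A Q Γ) : Prop :=
  ∃ u o, c.2.1 = u ++ c'.2.1 ∧ M.Mv c.1 u c'.2.1.head? c.2.2.head? c'.1 o ∧ c'.2.2 = o.app c.2.2

/-- Reachability. -/
def PDA.Reach (M : PDA A Q Γ) : Cfg A Q Γ → Cfg A Q Γ → Prop := Relation.ReflTransGen M.Step

/-- Initial configuration. -/
def PDA.init (M : PDA A Q Γ) (w : List A) : Cfg A Q Γ := (M.start, w, [])

/-- Existence of an accepting computation tree all of whose configurations have height at most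
`h`. A universal configuration without successor does not accept. -/
inductive PDA.AccIn (M : PDA A Q Γ) (h : ℕ) : Cfg A Q Γ → Prop
  | acc (c : Cfg A Q Γ) : c.1 ∈ M.acc → c.2.2.length ≤ h → PDA.AccIn M h c
  | ex (c c' : Cfg A Q Γ) : c.1 ∉ M.univ → c.2.2.length ≤ h → M.Step c c' → PDA.AccIn M h c' →
      PDA.AccIn M h c
  | un (c : Cfg A Q Γ) : c.1 ∈ M.univ → c.2.2.length ≤ h → (∃ c', M.Step c c') →
      (∀ c', M.Step c c' → PDA.AccIn M h c') → PDA.AccIn M h c

/-- Existence of an accepting computation tree. -/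
inductive PDA.Acc (M : PDA A Q Γ) : Cfg A Q Γ → Prop
  | acc (c : Cfg A Q Γ) : c.1 ∈ M.acc → PDA.Acc M c
  | ex (c c' : Cfg A Q Γ) : c.1 ∉ M.univ → M.Step c c' → PDA.Acc M c' → PDA.Acc M c
  | un (c : Cfg A Q Γ) : c.1 ∈ M.univ → (∃ c', M.Step c c') →
      (∀ c', M.Step c c' → PDA.Acc M c') → PDA.Acc M c

/-- The accepted language. -/
def PDA.lang (M : PDA A Q Γ) : Language A := {w | M.Acc (M.init w)}

/-- `s` is a strong space bound. -/
def PDA.Strong (M : PDA A Q Γ) (s : ℕ → ℕ) : Prop :=
  ∀ w c, M.Reach (M.init w) c → c.2.2.length ≤ s w.length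

/-- `s` is a middle space bound. -/
def PDA.Middle (M : PDA A Q Γ) (s : ℕ → ℕ) : Prop :=
  ∀ w ∈ M.lang, ∀ c, M.Reach (M.init w) c → c.2.2.length ≤ s w.length

/-- `s` is a weak space bound. -/
def PDA.Weak (M : PDA A Q Γ) (s : ℕ → ℕ) : Prop :=
  ∀ w ∈ M.lang, M.AccIn (s w.length) (M.init w)

/-- Realtime: for some `k` no computation makes `k` consecutive steps without moving the head. -/
def PDA.Realtime (M : PDA A Q Γ) : Prop :=
  ∃ k, ∀ (w : List A) (f : ℕ → Cfg A Q Γ), M.Reach (M.init w) (f 0) →
    (∀ i < k, M.Step (f i) (f (i + 1))) → (f k).2.1 ≠ (f 0).2.1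

/-- `s = o(f)` for functions with values in `ℕ`. -/
def LittleO (s f : ℕ → ℕ) : Prop := ∀ c : ℕ, ∀ᶠ n in Filter.atTop, c * s n ≤ f n

/-- `s = O(f)` for functions with values in `ℕ`. -/
def BigO (s f : ℕ → ℕ) : Prop := ∃ c : ℕ, ∀ᶠ n in Filter.atTop, s n ≤ c * f n

theorem PDA.Mv.step {M : PDA A Q Γ} {q : Q} {u : List A} {b : Option A} {γ : Option Γ} {q' : Q}
    {o : Op Γ} (h : M.Mv q u b γ q' o) {z : List A} {s : List Γ} (hz : z.head? = b)
    (hs : s.head? = γ) : M.Step (q, u ++ z, s) (q', z, o.app s) := by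
  subst hz hs
  exact ⟨u, o, rfl, h, rfl⟩

/-- Monotonicity in the height and forgetting the height. -/
theorem PDA.AccIn.toAcc {M : PDA A Q Γ} {h : ℕ} {c : Cfg A Q Γ} (H : M.AccIn h c) : M.Acc c := by
  induction H with
  | acc c h1 h2 => exact .acc c h1
  | ex c c' h1 h2 h3 h4 ih => exact .ex c c' h1 h3 ih
  | un c h1 h2 h3 h4 ih => exact .un c h1 h3 ih

theorem PDA.AccIn.mono {M : PDA A Q Γ} {h h' : ℕ} (hh : h ≤ h') {c : Cfg A Q Γ}
    (H : M.AccIn h c) : M.AccIn h' c := by
  induction H with
  | acc c h1 h2 => exact .acc c h1 (h2.trans hh)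
  | ex c c' h1 h2 h3 h4 ih => exact .ex c c' h1 (h2.trans hh) h3 ih
  | un c h1 h2 h3 h4 ih => exact .un c h1 (h2.trans hh) h3 ih

theorem PDA.AccIn.height {M : PDA A Q Γ} {h : ℕ} {c : Cfg A Q Γ} (H : M.AccIn h c) :
    c.2.2.length ≤ h := by
  cases H <;> assumption

/-- If all reachable configurations have height at most `h`, acceptance is within height `h`. -/
theorem PDA.Acc.toAccIn {M : PDA A Q Γ} {h : ℕ} {c : Cfg A Q Γ} (H : M.Acc c)
    (hr : ∀ c', M.Reach c c' → c'.2.2.length ≤ h) : M.AccIn h c := by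
  induction H with
  | acc c h1 => exact .acc c h1 (hr c .refl)
  | ex c c' h1 h3 h4 ih =>
    exact .ex c c' h1 (hr c .refl) h3 (ih fun d hd => hr d (Relation.ReflTransGen.head h3 hd))
  | un c h1 h3 h4 ih =>
    exact .un c h1 (hr c .refl) h3
      fun c' hc' => ih c' hc' fun d hd => hr d (Relation.ReflTransGen.head hc' hd)

theorem PDA.Strong.middle {M : PDA A Q Γ} {s : ℕ → ℕ} (h : M.Strong s) : M.Middle s :=
  fun w _ c hc => h w c hc

theorem PDA.Middle.weak {M : PDA A Q Γ} {s : ℕ → ℕ} (h : M.Middle s) : M.Weak s :=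
  fun w hw => PDA.Acc.toAccIn hw fun c hc => h w hw c hc

end Q222.PS
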