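import Pool.Agent.Q222.PS.Model

namespace Q222.PS

variable {A Q Γ : Type}

/-- Right-to-left classification with finitely many classes gives regularity. -/
theorem regular_of_class {β : Type} {L : Language A} (κ : List A → β)
    (hfin : (Set.range κ).Finite) (hcong : ∀ a y y', κ y = κ y' → κ (a :: y) = κ (a :: y'))
    (hL : ∀ y y', κ y = κ y' → y ∈ L → y' ∈ L) : L.IsRegular := by
  apply Language.IsRegular.of_finite_range_leftQuotient
  have hcong' : ∀ u y y', κ y = κ y' → κ (u ++ y) = κ (u ++ y') := by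
    intro u
    induction u with
    | nil => intro y y' h; exact h
    | cons a u ih => intro y y' h; exact hcong a _ _ (ih y y' h)
  have hsub : Set.range L.leftQuotient ⊆
      (fun S : Set β => ({y | κ y ∈ S} : Language A)) '' {S | S ⊆ Set.range κ} := by
    rintro _ ⟨u, rfl⟩
    refine ⟨κ '' {y | u ++ y ∈ L}, by rintro _ ⟨y, -, rfl⟩; exact ⟨y, rfl⟩, ?_⟩
    ext y
    constructor
    · rintro ⟨y', hy', he⟩
      exact hL _ _ (hcong' u _ _ he) hy'
    · intro hy
      exact ⟨y, hy, rfl⟩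
  exact (hfin.finite_subsets.image _).subset hsub

/-- Configurations (state, store) from which the rest `y` of the input is accepted within height
`h`. -/
def kap (M : PDA A Q Γ) (h : ℕ) (y : List A) : Set (Q × List Γ) :=
  {p | M.AccIn h (p.1, y, p.2)}

theorem step_cons {M : PDA A Q Γ} {a : A} {y : List A} {q : Q} {s : List Γ} {c : Cfg A Q Γ}
    (h : M.Step (q, a :: y, s) c) : (c.2.1 = a :: y ∧ ∀ y', M.Step (q, a :: y', s) (c.1, a :: y', c.2.2)) ∨
      (c.2.1 = y ∧ ∀ y', M.Step (q, a :: y', s) (c.1, y', c.2.2)) := by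
  obtain ⟨u, o, h1, ⟨h0, h2⟩, h3⟩ := h
  rcases h2 with ⟨rfl, h2⟩ | ⟨b, rfl, h2⟩
  · left
    have h1' : c.2.1 = a :: y := h1.symm
    refine ⟨h1', fun y' => ⟨[], o, rfl, ⟨h0, Or.inl ⟨rfl, ?_⟩⟩, h3⟩⟩
    rw [h1'] at h2
    exact h2
  · right
    have h1' : a :: y = b :: c.2.1 := h1
    obtain ⟨rfl, h4⟩ := List.cons.inj h1'
    refine ⟨h4.symm, fun y' => ⟨[a], o, rfl, ⟨h0, Or.inr ⟨a, rfl, h2⟩⟩, h3⟩⟩

theorem kap_cons_sub {M : PDA A Q Γ} {h : ℕ} {a : A} {y y' : List A}
    (he : kap M h y = kap M h y') {c : Cfg A Q Γ} (H : M.AccIn h c) (hc : c.2.1 = a :: y) :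
    M.AccIn h (c.1, a :: y', c.2.2) := by
  have hmv : ∀ {q : Q} {s : List Γ}, M.AccIn h (q, y, s) → M.AccIn h (q, y', s) := by
    intro q s hq
    have : (q, s) ∈ kap M h y := hq
    rw [he] at this
    exact this
  induction H with
  | acc c h1 h2 => exact .acc _ h1 h2
  | ex c c' h1 h2 h3 h4 ih =>
    obtain ⟨q, x, s⟩ := c
    obtain rfl : x = a :: y := hc
    rcases step_cons h3 with ⟨e1, e2⟩ | ⟨e1, e2⟩
    · exact .ex _ _ h1 h2 (e2 y') (ih e1)
    · obtain ⟨q1, x1, s1⟩ := c'
      obtain rfl : x1 = y := e1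
      exact .ex _ _ h1 h2 (e2 y') (hmv h4)
  | un c h1 h2 h3 h4 ih =>
    obtain ⟨q, x, s⟩ := c
    obtain rfl : x = a :: y := hc
    refine .un _ h1 h2 ?_ ?_
    · obtain ⟨c', hc'⟩ := h3
      rcases step_cons hc' with ⟨e1, e2⟩ | ⟨e1, e2⟩
      · exact ⟨_, e2 y'⟩
      · exact ⟨_, e2 y'⟩
    · intro d hd
      rcases step_cons hd with ⟨e1, e2⟩ | ⟨e1, e2⟩
      · have h5 := e2 y
        have := ih _ h5 rfl
        obtain ⟨q1, x1, s1⟩ := d
        obtain rfl : x1 = a :: y' := e1
        exact this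
      · have h5 := e2 y
        have := hmv (h4 _ h5)
        obtain ⟨q1, x1, s1⟩ := d
        obtain rfl : x1 = y' := e1
        exact this

theorem kap_cons (M : PDA A Q Γ) (h : ℕ) (a : A) (y y' : List A)
    (he : kap M h y = kap M h y') : kap M h (a :: y) = kap M h (a :: y') := by
  ext p
  constructor
  · intro hp; exact kap_cons_sub he (c := (p.1, a :: y, p.2)) hp rfl
  · intro hp; exact kap_cons_sub he.symm (c := (p.1, a :: y', p.2)) hp rfl

/-- The small configurations. -/
def small (Q Γ : Type) (h : ℕ) : Set (Q × List Γ) := {p | p.2.length ≤ h}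

theorem small_finite [Finite Q] [Finite Γ] (h : ℕ) : (small Q Γ h).Finite := by
  have h1 : {l : List Γ | l.length ≤ h}.Finite := List.finite_length_le Γ h
  refine (Set.Finite.prod (Set.finite_univ (α := Q)) h1).subset ?_
  rintro ⟨q, l⟩ hl
  exact ⟨Set.mem_univ _, hl⟩

theorem kap_sub (M : PDA A Q Γ) (h : ℕ) (y : List A) : kap M h y ⊆ small Q Γ h :=
  fun _ hp => PDA.AccIn.height hp

/-- The words accepted within height `h`. -/
def langIn (M : PDA A Q Γ) (h : ℕ) : Language A := {w | M.AccIn h (M.init w)}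

theorem langIn_regular [Finite Q] [Finite Γ] (M : PDA A Q Γ) (h : ℕ) :
    (langIn M h).IsRegular := by
  apply regular_of_class (kap M h)
  · refine ((small_finite (Q := Q) (Γ := Γ) h).finite_subsets).subset ?_
    rintro _ ⟨y, rfl⟩
    exact kap_sub M h y
  · exact kap_cons M h
  · intro y y' he hy
    have : (M.start, []) ∈ kap M h y := hy
    rw [he] at this
    exact this

end Q222.PS
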