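import Pool.Agent.Q222.PS.Shape

namespace Q222.PS

/-! ### Binary values -/

/-- Value of a digit list, least significant digit first. -/
def val : List Bool → ℕ
  | [] => 0
  | b :: x => b.toNat + 2 * val x

theorem toNat_le (b : Bool) : b.toNat ≤ 1 := by cases b <;> simp

theorem val_lt (x : List Bool) : val x < 2 ^ x.length := by
  induction x with
  | nil => simp [val]
  | cons b x ih =>
    have := toNat_le b
    simp only [val, List.length_cons, pow_succ]
    omega

theorem inc_len (x : List Bool) : ∀ c, (inc x c).1.length = x.length := by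
  induction x with
  | nil => intro c; rfl
  | cons b x ih => intro c; simp [inc, ih]

theorem inc_val (x : List Bool) : ∀ c,
    val (inc x c).1 + 2 ^ x.length * (inc x c).2.toNat = val x + c.toNat := by
  induction x with
  | nil => intro c; simp [inc, val]
  | cons b x ih =>
    intro c
    have h := ih (b && c)
    simp only [inc, val, List.length_cons, pow_succ]
    have h2 : (xor b c).toNat + 2 * (b && c).toNat = b.toNat + c.toNat := by
      cases b <;> cases c <;> rfl
    nlinarith

theorem val_inj (x : List Bool) : ∀ y, x.length = y.length → val x = val y → x = y := by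
  induction x with
  | nil => intro y h _; cases y with
    | nil => rfl
    | cons _ _ => simp at h
  | cons b x ih =>
    intro y h h2
    cases y with
    | nil => simp at h
    | cons c y =>
      simp only [val] at h2
      have h3 : b.toNat = c.toNat ∧ val x = val y := by
        have := toNat_le b
        have := toNat_le c
        omega
      rw [ih y (by simpa using h) h3.2]
      congr 1
      cases b <;> cases c <;> simp_all

theorem val_zero {x : List Bool} (h : ∀ d ∈ x, d = false) : val x = 0 := by
  induction x with
  | nil => rfl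
  | cons b x ih =>
    rw [val, ih fun d hd => h d (List.mem_cons_of_mem _ hd), h b List.mem_cons_self]
    rfl

theorem val_ones {x : List Bool} (h : ∀ d ∈ x, d = true) : val x + 1 = 2 ^ x.length := by
  induction x with
  | nil => rfl
  | cons b x ih =>
    have := ih fun d hd => h d (List.mem_cons_of_mem _ hd)
    rw [val, h b List.mem_cons_self, List.length_cons, pow_succ]
    simp only [Bool.toNat_true]
    omega

theorem mod_aux (t N i : ℕ) (h : i < N) : (t * N + i) % N = i := by
  rw [Nat.add_comm, Nat.add_mul_mod_self_right, Nat.mod_eq_of_lt h]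

/-! ### Index form of the conditions -/

/-- Default cell. -/
def dc : Cell := ⟨⟨false, false, false, false, false, false⟩, [], []⟩

theorem drop_eq {L : List Cell} {k : ℕ} (h : k < L.length) :
    L.drop k = L.getD k dc :: L.drop (k + 1) := by
  rw [List.drop_eq_getElem_cons h]
  congr 1
  simp [List.getD, h]

theorem chain_index (cs : List Cell) : ∀ c, CellOK c cs → Chain c.f cs →
    (∀ k < (c :: cs).length, CellOK ((c :: cs).getD k dc) ((c :: cs).drop (k + 1))) ∧
    (∀ k, k + 1 < (c :: cs).length →
      Next ((c :: cs).getD k dc).f ((c :: cs).getD (k + 1) dc).f = true) ∧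
    ((c :: cs).getD cs.length dc).f.o = true ∧ ((c :: cs).getD cs.length dc).f.ao = true := by
  induction cs with
  | nil =>
    intro c h1 h2
    refine ⟨?_, ?_, h2⟩
    · intro k hk
      have : k = 0 := by simp at hk; exact hk
      subst this
      exact h1
    · intro k hk
      simp at hk
  | cons d ds ih =>
    intro c h1 h2
    obtain ⟨h3, h4, h5⟩ := h2
    obtain ⟨i1, i2, i3⟩ := ih d h4 h5
    refine ⟨?_, ?_, ?_⟩
    · intro k hk
      cases k with
      | zero => exact h1
      | succ k =>
        have := i1 k (by simpa using hk)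
        simpa using this
    · intro k hk
      cases k with
      | zero => exact h3
      | succ k =>
        have := i2 k (by simpa using hk)
        simpa using this
    · simpa using i3

/-- Structure of a well-formed list of cells in terms of indices. `N` is the block length. -/
structure Str (L : List Cell) (m N : ℕ) : Prop where
  hN : N = 2 ^ m
  hm : 1 ≤ m
  len : ∀ k < L.length, (L.getD k dc).x.length = m
  va : ∀ k < L.length, val (L.getD k dc).x = k % N
  hz : ∀ k < L.length, (L.getD k dc).f.z = decide (k % N = 0)

theorem V_iff {L : List Cell} {N : ℕ} (_hN : 1 ≤ N)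
    (hz : ∀ k < L.length, (L.getD k dc).f.z = decide (k % N = 0)) (e : Bool) (X : List Bool)
    (n : ℕ) : ∀ j, j + n = L.length → 1 ≤ j →
    (V1 e X (L.drop j) ↔ ∀ i, j ≤ i → i < L.length → i / N = (j - 1) / N →
      Chk e X (L.getD i dc)) ∧
    (V0 e X (L.drop j) ↔ ∀ i, j ≤ i → i < L.length → i / N = (j - 1) / N + 1 →
      Chk e X (L.getD i dc)) := by
  induction n with
  | zero =>
    intro j hj _
    have : L.drop j = [] := by rw [List.drop_eq_nil_iff]; omega
    rw [this]
    refine ⟨⟨fun _ i h1 h2 => by omega, fun _ => by rw [V1]; trivial⟩,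
      ⟨fun _ i h1 h2 => by omega, fun _ => by rw [V0]; trivial⟩⟩
  | succ n ih =>
    intro j hj hj1
    obtain ⟨j', rfl⟩ : ∃ j', j = j' + 1 := ⟨j - 1, by omega⟩
    obtain ⟨i1, i2⟩ := ih (j' + 1 + 1) (by omega) (by omega)
    have hlt : j' + 1 < L.length := by omega
    rw [drop_eq hlt, V1, V0, hz _ hlt, i1, i2]
    simp only [Nat.add_sub_cancel, decide_eq_true_eq]
    by_cases h0 : (j' + 1) % N = 0
    · have hdiv : (j' + 1) / N = j' / N + 1 := by
        rw [Nat.succ_div, if_pos (Nat.dvd_of_mod_eq_zero h0)]
      rw [if_pos h0, if_pos h0]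
      constructor
      · refine ⟨fun _ i h1 _ h3 => ?_, fun _ => trivial⟩
        have : (j' + 1) / N ≤ i / N := Nat.div_le_div_right h1
        omega
      · constructor
        · rintro ⟨h1, h2⟩ i h3 h4 h5
          rcases Nat.eq_or_lt_of_le h3 with h6 | h6
          · rw [← h6]; exact h1
          · exact h2 i h6 h4 (by omega)
        · intro h
          exact ⟨h _ le_rfl hlt hdiv, fun i h3 h4 h5 => h i (by omega) h4 (by omega)⟩
    · have hdiv : (j' + 1) / N = j' / N := by
        rw [Nat.succ_div, if_neg (fun h => h0 (Nat.mod_eq_zero_of_dvd h)), Nat.add_zero]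
      rw [if_neg h0, if_neg h0]
      constructor
      · constructor
        · rintro ⟨h1, h2⟩ i h3 h4 h5
          rcases Nat.eq_or_lt_of_le h3 with h6 | h6
          · rw [← h6]; exact h1
          · exact h2 i h6 h4 (by omega)
        · intro h
          exact ⟨h _ le_rfl hlt hdiv, fun i h3 h4 h5 => h i (by omega) h4 (by omega)⟩
      · constructor
        · intro h i h3 h4 h5
          rcases Nat.eq_or_lt_of_le h3 with h6 | h6
          · exfalso; rw [← h6] at h5; omega
          · exact h i h6 h4 (by omega)
        · intro h i h3 h4 h5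
          exact h i (by omega) h4 (by omega)

section
variable {L : List Cell} (hne : L ≠ []) (hF : First (L.getD 0 dc).f = true)
  (hOK : ∀ k < L.length, CellOK (L.getD k dc) (L.drop (k + 1)))
  (hNx : ∀ k, k + 1 < L.length → Next (L.getD k dc).f (L.getD (k + 1) dc).f = true)

include hne hF hOK

theorem str_of : Str L (L.getD 0 dc).x.length (2 ^ (L.getD 0 dc).x.length) := by
  have hpos : 0 < L.length := List.length_pos_iff.2 hne
  set m := (L.getD 0 dc).x.length with hm
  have hm1 : 1 ≤ m := by
    have h1 := (hOK 0 hpos).1
    rw [hm]
    exact Nat.one_le_iff_ne_zero.2 fun h => h1 (List.length_eq_zero_iff.1 h)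
  have hN1 : 2 ≤ 2 ^ m := by
    calc 2 = 2 ^ 1 := rfl
      _ ≤ 2 ^ m := Nat.pow_le_pow_right (by norm_num) hm1
  have key : ∀ k, k < L.length → (L.getD k dc).x.length = m ∧ val (L.getD k dc).x = k % 2 ^ m ∧
      (L.getD k dc).f.z = decide (k % 2 ^ m = 0) := by
    intro k
    induction k with
    | zero =>
      intro _
      have hz : (L.getD 0 dc).f.z = true := by
        simp only [First, Bool.and_eq_true] at hF
        exact hF.1.1.1
      refine ⟨rfl, ?_, ?_⟩
      · rw [Nat.zero_mod]
        apply val_zero
        intro d hd
        have := (hOK 0 hpos).2.2.1 d hd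
        simp only [Dig, hz, Bool.and_eq_true, Bool.or_eq_true, Bool.not_eq_true'] at this
        rcases this.2 with h | h
        · simp at h
        · exact h
      · rw [hz]; simp
    | succ k ih =>
      intro hk
      obtain ⟨h1, h2, -⟩ := ih (by omega)
      have hs := (hOK k (by omega)).2.2.2.2.1
      rw [drop_eq hk, SucC] at hs
      have hlen := inc_len (L.getD k dc).x true
      have hval := inc_val (L.getD k dc).x true
      rw [hs] at hlen hval
      simp only at hlen hval
      rw [h1] at hlen hval
      rw [h2] at hval
      have hlt := val_lt (L.getD (k + 1) dc).x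
      rw [hlen] at hlt
      refine ⟨hlen, ?_⟩
      simp only [Bool.toNat_true] at hval
      have hb := toNat_le (L.getD (k + 1) dc).f.z
      have hkm : k % 2 ^ m < 2 ^ m := Nat.mod_lt _ (by omega)
      by_cases hend : k % 2 ^ m + 1 = 2 ^ m
      · have hmod : (k + 1) % 2 ^ m = 0 := by
          rw [Nat.add_mod, Nat.mod_eq_of_lt (show 1 < 2 ^ m by omega), hend, Nat.mod_self]
        cases hzz : (L.getD (k + 1) dc).f.z with
        | true =>
          rw [hzz] at hval
          simp only [Bool.toNat_true, Nat.mul_one] at hval
          rw [hmod]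
          exact ⟨by omega, by simp⟩
        | false =>
          rw [hzz] at hval
          simp only [Bool.toNat_false, Nat.mul_zero, Nat.add_zero] at hval
          omega
      · have hmod : (k + 1) % 2 ^ m = k % 2 ^ m + 1 := by
          rw [Nat.add_mod, Nat.mod_eq_of_lt (show 1 < 2 ^ m by omega),
            Nat.mod_eq_of_lt (by omega)]
        cases hzz : (L.getD (k + 1) dc).f.z with
        | true =>
          rw [hzz] at hval
          simp only [Bool.toNat_true, Nat.mul_one] at hval
          omega
        | false =>
          rw [hzz] at hval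
          simp only [Bool.toNat_false, Nat.mul_zero, Nat.add_zero] at hval
          rw [hmod]
          exact ⟨by omega, by simp⟩
  exact ⟨rfl, hm1, fun k hk => (key k hk).1, fun k hk => (key k hk).2.1,
    fun k hk => (key k hk).2.2⟩

omit hne hF in
/-- The vertical relation. -/
theorem vertical {m N : ℕ} (S : Str L m N) {k : ℕ} (hk : k + N < L.length) :
    (L.getD (k + N) dc).f.bit = xor (L.getD k dc).f.bit (L.getD k dc).f.cy := by
  have hN : 1 ≤ N := by rw [S.hN]; exact Nat.one_le_two_pow
  have h1 := (hOK k (by omega)).2.2.2.2.2
  have h2 := ((V_iff hN S.hz _ _ (L.length - (k + 1)) (k + 1) (by omega) (by omega)).2).1 h1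
    (k + N) (by omega) hk (by rw [Nat.add_div_right _ hN]; rfl)
  by_contra hcon
  apply h2 hcon
  have h3 := (hOK (k + N) hk).2.2.2.1
  rw [h3]
  congr 1
  apply val_inj
  · rw [S.len _ hk, S.len _ (by omega)]
  · rw [S.va _ hk, S.va _ (by omega), Nat.add_mod_right]

include hNx

/-- The number of cells is large. -/
theorem long {m N : ℕ} (S : Str L m N) (ho : (L.getD (L.length - 1) dc).f.o = true)
    (hao : (L.getD (L.length - 1) dc).f.ao = true) : 2 ^ N ≤ L.length := by
  have hN : 1 ≤ N := by rw [S.hN]; exact Nat.one_le_two_pow
  have hpos : 0 < L.length := List.length_pos_iff.2 hne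
  -- the relations between consecutive cells
  have hnext : ∀ k, k + 1 < L.length →
      ((k + 1) % N ≠ 0 → (L.getD (k + 1) dc).f.cy = ((L.getD k dc).f.cy && (L.getD k dc).f.bit)) ∧
      ((k + 1) % N ≠ 0 → (L.getD (k + 1) dc).f.fb = (L.getD k dc).f.fb) ∧
      ((k + 1) % N ≠ 0 → (L.getD (k + 1) dc).f.ao =
        ((L.getD k dc).f.ao && (L.getD (k + 1) dc).f.bit)) := by
    intro k hk
    have h1 := hNx k hk
    have h2 := S.hz (k + 1) hk
    simp only [Next, Bool.and_eq_true, Bool.or_eq_true, beq_iff_eq] at h1
    obtain ⟨⟨⟨a1, a2⟩, a3⟩, -⟩ := h1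
    refine ⟨fun h => ?_, fun h => ?_, fun h => ?_⟩
    · rw [decide_eq_false h] at h2
      rcases a1 with a1 | a1
      · rw [h2] at a1; simp at a1
      · exact a1
    · rw [decide_eq_false h] at h2
      rw [a2, h2]; simp
    · rw [decide_eq_false h] at h2
      rw [a3, h2]; simp
  have hloc : ∀ k < L.length, Loc (L.getD k dc).f = true := by
    intro k hk
    cases k with
    | zero =>
      simp only [First, Bool.and_eq_true] at hF
      exact hF.2
    | succ k =>
      have h1 := hNx k hk
      simp only [Next, Bool.and_eq_true] at h1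
      exact h1.2
  have hcy0 : ∀ k < L.length, k % N = 0 → (L.getD k dc).f.cy = true := by
    intro k hk h0
    have h1 := hloc k hk
    have h2 := S.hz k hk
    rw [decide_eq_true h0] at h2
    simp only [Loc, Bool.and_eq_true, Bool.or_eq_true, Bool.not_eq_true'] at h1
    rcases h1.2 with h3 | h3
    · rw [h2] at h3; simp at h3
    · exact h3
  have hfb0 : ∀ k < L.length, (L.getD k dc).f.fb = true → (L.getD k dc).f.bit = false := by
    intro k hk h0
    have h1 := hloc k hk
    simp only [Loc, Bool.and_eq_true, Bool.or_eq_true, Bool.not_eq_true'] at h1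
    rcases h1.1 with h3 | h3
    · rw [h0] at h3; simp at h3
    · exact h3
  -- first block
  have hfirst : ∀ k, k < N → k < L.length → (L.getD k dc).f.fb = true := by
    intro k
    induction k with
    | zero =>
      intro _ _
      simp only [First, Bool.and_eq_true] at hF
      exact hF.1.1.2
    | succ k ih =>
      intro h1 h2
      rw [(hnext k h2).2.1 (by rw [Nat.mod_eq_of_lt h1]; omega)]
      exact ih (by omega) (by omega)
  -- block sums
  let P : ℕ → ℕ → ℕ := fun t i => ∑ j ∈ Finset.range i, (L.getD (t * N + j) dc).f.bit.toNat * 2 ^ j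
  let Cy : ℕ → ℕ → Bool := fun t i => match i with
    | 0 => true
    | i + 1 => (L.getD (t * N + i) dc).f.cy && (L.getD (t * N + i) dc).f.bit
  have hCy : ∀ t i, i < N → t * N + i < L.length → (L.getD (t * N + i) dc).f.cy = Cy t i := by
    intro t i hi hk
    cases i with
    | zero => exact hcy0 _ hk (by simp)
    | succ i =>
      refine (hnext (t * N + i) hk).1 ?_
      rw [Nat.add_assoc, mod_aux _ _ _ hi]
      omega
  have hP : ∀ t i, i ≤ N → (t + 1) * N + i ≤ L.length →
      P (t + 1) i + 2 ^ i * (Cy t i).toNat = P t i + 1 := by
    intro t i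
    induction i with
    | zero => intro _ _; simp [P, Cy]
    | succ i ih =>
      intro hi hk
      have h1 := ih (by omega) (by omega)
      have hk2 : t * N + i < L.length := by nlinarith
      have h2 : (L.getD ((t + 1) * N + i) dc).f.bit =
          xor (L.getD (t * N + i) dc).f.bit (Cy t i) := by
        have e : (t + 1) * N + i = (t * N + i) + N := by ring
        rw [e, vertical hOK S (by rw [← e]; omega), hCy t i (by omega) hk2]
      have h3 : Cy t (i + 1) = ((Cy t i) && (L.getD (t * N + i) dc).f.bit) := by
        show ((L.getD (t * N + i) dc).f.cy && (L.getD (t * N + i) dc).f.bit) = _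
        rw [hCy t i (by omega) hk2]
      have e1 : P (t + 1) (i + 1) = P (t + 1) i +
          (L.getD ((t + 1) * N + i) dc).f.bit.toNat * 2 ^ i := Finset.sum_range_succ _ _
      have e2 : P t (i + 1) = P t i + (L.getD (t * N + i) dc).f.bit.toNat * 2 ^ i :=
        Finset.sum_range_succ _ _
      rw [e1, e2, h2, h3]
      generalize (L.getD (t * N + i) dc).f.bit = b
      generalize Cy t i = c at h1 ⊢
      rw [pow_succ]
      cases b <;> cases c <;> simp at h1 ⊢ <;> nlinarith
  have hB : ∀ t, (t + 1) * N ≤ L.length → P t N ≤ t := by
    intro t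
    induction t with
    | zero =>
      intro h
      have : P 0 N = 0 := by
        apply Finset.sum_eq_zero
        intro j hj
        have hj' := Finset.mem_range.1 hj
        have h1 : 0 * N + j < L.length := by
          rw [Nat.zero_mul, Nat.zero_add]
          rw [Nat.zero_add, Nat.one_mul] at h
          omega
        rw [hfb0 _ h1 (hfirst _ (by omega) h1)]
        simp
      omega
    | succ t ih =>
      intro h
      have h1 := hP t N le_rfl (by nlinarith)
      have h2 := ih (by nlinarith)
      omega
  -- the last block
  obtain ⟨K, hK⟩ : ∃ K, K + 1 = L.length := ⟨L.length - 1, by omega⟩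
  have hK' : L.length - 1 = K := by omega
  rw [hK'] at ho hao
  have hmod : K % N = N - 1 := by
    have h1 := (hOK K (by omega)).2.2.1
    have h2 : val (L.getD K dc).x + 1 = 2 ^ (L.getD K dc).x.length := by
      apply val_ones
      intro d hd
      have := h1 d hd
      simp only [Dig, ho, Bool.and_eq_true, Bool.or_eq_true, Bool.not_eq_true'] at this
      rcases this.1 with h | h
      · simp at h
      · exact h
    rw [S.va K (by omega), S.len K (by omega), ← S.hN] at h2
    omega
  set T := K / N with hT
  have hKT : K = T * N + (N - 1) := by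
    rw [← hmod, hT, Nat.mul_comm]; exact (Nat.div_add_mod K N).symm
  have hlast : ∀ d, d < N → (L.getD (T * N + (N - 1 - d)) dc).f.ao = true := by
    intro d
    induction d with
    | zero => intro _; rw [Nat.sub_zero, ← hKT]; exact hao
    | succ d ih =>
      intro hd
      have h1 := ih (by omega)
      obtain ⟨i, hi⟩ : ∃ i, N - 1 - (d + 1) = i := ⟨_, rfl⟩
      have e : N - 1 - d = i + 1 := by omega
      rw [hi]
      rw [e] at h1
      have hlt : T * N + i + 1 < L.length := by omega
      have h2 := (hnext (T * N + i) hlt).2.2 (by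
        rw [Nat.add_assoc, mod_aux _ _ _ (by omega)]; omega)
      have h3 : (L.getD (T * N + i + 1) dc).f.ao = true := h1
      rw [h3] at h2
      have h4 := h2.symm
      rw [Bool.and_eq_true] at h4
      exact h4.1
  have hlastbit : ∀ i, i < N → (L.getD (T * N + i) dc).f.bit = true := by
    intro i hi
    have h1 := hlast (N - 1 - i) (by omega)
    have e : N - 1 - (N - 1 - i) = i := by omega
    rw [e] at h1
    -- `ao` implies `bit`
    have hk : T * N + i < L.length := by omega
    rcases Nat.eq_zero_or_pos (T * N + i) with h0 | h0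
    · rw [h0] at h1 ⊢
      simp only [First, Bool.and_eq_true, beq_iff_eq] at hF
      rw [← hF.1.2]; exact h1
    · obtain ⟨k, hk'⟩ : ∃ k, T * N + i = k + 1 := ⟨T * N + i - 1, by omega⟩
      rw [hk'] at h1 hk ⊢
      have h2 := hNx k hk
      simp only [Next, Bool.and_eq_true, beq_iff_eq] at h2
      rw [h2.1.2] at h1
      rw [Bool.and_eq_true] at h1
      exact h1.2
  have hsum : P T N + 1 = 2 ^ N := by
    have : ∀ i, i ≤ N → P T i + 1 = 2 ^ i := by
      intro i
      induction i with
      | zero => intro _; simp [P]
      | succ i ih =>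
        intro hi
        have e2 : P T (i + 1) = P T i + (L.getD (T * N + i) dc).f.bit.toNat * 2 ^ i :=
          Finset.sum_range_succ _ _
        rw [e2, hlastbit i (by omega), pow_succ]
        have := ih (by omega)
        simp only [Bool.toNat_true]
        omega
    exact this N le_rfl
  have hfin := hB T (by rw [Nat.add_mul]; omega)
  have : T ≤ K := Nat.div_le_self _ _
  omega

end

end Q222.PS
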