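import Pool.Agent.Q222.PS.Mach

namespace Q222.PS

/-- Successor condition. -/
def SucC (c : Cell) : List Cell → Prop
  | [] => True
  | c' :: _ => inc c.x true = (c'.x, c'.f.z)

/-- All conditions at one cell. -/
def CellOK (c : Cell) (cs : List Cell) : Prop :=
  c.x ≠ [] ∧ c.r ≠ [] ∧ (∀ d ∈ c.x, Dig c.f d = true) ∧ c.r = c.x.reverse ∧ SucC c cs ∧
    V0 (xor c.f.bit c.f.cy) c.x.reverse cs

/-- All conditions on the cells after a cell with header `f`. -/
def Chain (f : Fld) : List Cell → Prop
  | [] => f.o = true ∧ f.ao = true
  | c :: cs => Next f c.f = true ∧ CellOK c cs ∧ Chain c.f cs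

theorem acc_br {g : Fld} {y : List Let} : (∀ r ∈ br g, LL.Acc (r.1, y, r.2.app [])) ↔
    LL.Acc (.mH g, y, []) ∧ LL.Acc (.pal, y, []) ∧ LL.Acc (.suc, y, []) ∧
      LL.Acc (.vP (xor g.bit g.cy), y, []) := by
  simp [br, Op.app]

theorem chain_head {f : Fld} {c : Cell} {cs : List Cell} (h : Chain f (c :: cs)) : c.r ≠ [] :=
  h.2.1.2.1

/-- Assemble the condition at one cell from the branches. -/
theorem cellOK_of {g : Fld} {x r : List Bool} {cells : List Cell} (hx : x ≠ []) (hr : r ≠ [])
    (hd : ∀ d ∈ x, Dig g d = true) (hc : Chain g cells)
    (h1 : LL.Acc (.pal, (⟨g, x, r⟩ : Cell).body ++ flat cells, []))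
    (h2 : LL.Acc (.suc, (⟨g, x, r⟩ : Cell).body ++ flat cells, []))
    (h3 : LL.Acc (.vP (xor g.bit g.cy), (⟨g, x, r⟩ : Cell).body ++ flat cells, [])) :
    CellOK ⟨g, x, r⟩ cells := by
  have e1 : r = x.reverse := (pal_iff _ _).1 h1
  refine ⟨hx, hr, hd, e1, ?_, (ver_iff _ _ _ hr).1 h3⟩
  cases cells with
  | nil => exact trivial
  | cons c' cs =>
    have := (suc_iff _ _ _ (chain_head hc)).1 h2
    simp only at this
    rw [e1, List.reverse_reverse] at this
    exact this

/-- Structure of the accepted words, read from the main states. -/
theorem main_struct (y : List Let) :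
    (∀ f, LL.Acc (.mR f, y, []) → ∃ (r : List Bool) (cells : List Cell),
      y = r.map .r ++ flat cells ∧ Chain f cells) ∧
    (∀ f, LL.Acc (.mL f, y, []) → ∃ (x r : List Bool) (cells : List Cell), r ≠ [] ∧
      y = x.map .l ++ (r.map .r ++ flat cells) ∧
      (∀ d ∈ x, Dig f d = true) ∧ Chain f cells) ∧
    (∀ f, LL.Acc (.mH f, y, []) → ∃ (x r : List Bool) (cells : List Cell), x ≠ [] ∧ r ≠ [] ∧
      y = x.map .l ++ (r.map .r ++ flat cells) ∧ (∀ d ∈ x, Dig f d = true) ∧ Chain f cells) := by
  induction y with
  | nil =>
    refine ⟨fun f h => ?_, fun f h => ?_, fun f h => ?_⟩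
    · rw [LL, umach_acc_nil (by simp)] at h
      simp only [eps, Bool.and_eq_true] at h
      exact ⟨[], [], rfl, h⟩
    · rw [LL, umach_acc_nil (by simp)] at h
      simp [eps] at h
    · rw [LL, umach_acc_nil (by simp)] at h
      simp [eps] at h
  | cons a y ih =>
    obtain ⟨ihR, ihL, ihH⟩ := ih
    refine ⟨fun f h => ?_, fun f h => ?_, fun f h => ?_⟩
    · rw [LL, umach_acc_cons (by simp)] at h
      obtain ⟨h1, h2⟩ := h
      cases a with
      | l d => simp [del] at h1
      | r d =>
        simp only [del, List.mem_singleton, forall_eq, Op.app] at h2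
        obtain ⟨r, cells, e, hc⟩ := ihR f h2
        exact ⟨d :: r, cells, by rw [e]; rfl, hc⟩
      | hd g =>
        by_cases hn : Next f g = true
        · simp only [del, if_pos hn] at h2
          rw [← LL, acc_br] at h2
          obtain ⟨b1, b2, b3, b4⟩ := h2
          obtain ⟨x, r, cells, hx, hr, e, hd, hc⟩ := ihH g b1
          have e' : y = (⟨g, x, r⟩ : Cell).body ++ flat cells := by
            rw [e, Cell.body, List.append_assoc]
          rw [e'] at b2 b3 b4
          exact ⟨[], ⟨g, x, r⟩ :: cells, by rw [e']; rfl, hn,
            cellOK_of hx hr hd hc b2 b3 b4, hc⟩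
        · simp only [del, if_neg hn] at h1
          exact absurd rfl h1
    · rw [LL, umach_acc_cons (by simp)] at h
      obtain ⟨h1, h2⟩ := h
      cases a with
      | l d =>
        by_cases hn : Dig f d = true
        · simp only [del, if_pos hn, List.mem_singleton, forall_eq, Op.app] at h2
          obtain ⟨x, r, cells, hr, e, hd, hc⟩ := ihL f h2
          refine ⟨d :: x, r, cells, hr, by rw [e]; rfl, ?_, hc⟩
          intro d' hd'
          rcases List.mem_cons.1 hd' with rfl | h'
          · exact hn
          · exact hd d' h'
        · simp only [del, if_neg hn] at h1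
          exact absurd rfl h1
      | r d =>
        simp only [del, List.mem_singleton, forall_eq, Op.app] at h2
        obtain ⟨r, cells, e, hc⟩ := ihR f h2
        exact ⟨[], d :: r, cells, by simp, by rw [e]; rfl, by simp, hc⟩
      | hd g => simp [del] at h1
    · rw [LL, umach_acc_cons (by simp)] at h
      obtain ⟨h1, h2⟩ := h
      cases a with
      | l d =>
        by_cases hn : Dig f d = true
        · simp only [del, if_pos hn, List.mem_singleton, forall_eq, Op.app] at h2
          obtain ⟨x, r, cells, hr, e, hd, hc⟩ := ihL f h2
          refine ⟨d :: x, r, cells, by simp, hr, by rw [e]; rfl, ?_, hc⟩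
          intro d' hd'
          rcases List.mem_cons.1 hd' with rfl | h'
          · exact hn
          · exact hd d' h'
        · simp only [del, if_neg hn] at h1
          exact absurd rfl h1
      | r d => simp [del] at h1
      | hd g => simp [del] at h1

theorem mR_conv {f : Fld} {y : List Let} (h : LL.Acc (.mR f, y, [])) (r : List Bool) :
    LL.Acc (.mR f, r.map .r ++ y, []) := by
  induction r with
  | nil => exact h
  | cons d r ih =>
    rw [List.map_cons, List.cons_append, LL, umach_acc_cons (by simp)]
    simp only [del, ne_eq, List.cons_ne_nil, not_false_eq_true, List.mem_singleton, forall_eq,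
      true_and, Op.app]
    exact ih

theorem mL_conv {f : Fld} {x r : List Bool} {y : List Let} (h : LL.Acc (.mR f, y, []))
    (hr : r ≠ []) (hx : ∀ d ∈ x, Dig f d = true) :
    LL.Acc (.mL f, x.map .l ++ (r.map .r ++ y), []) := by
  induction x with
  | nil =>
    obtain ⟨d, r', rfl⟩ := List.exists_cons_of_ne_nil hr
    rw [List.map_nil, List.nil_append, List.map_cons, List.cons_append, LL,
      umach_acc_cons (by simp)]
    simp only [del, ne_eq, List.cons_ne_nil, not_false_eq_true, List.mem_singleton, forall_eq,
      true_and, Op.app]
    exact mR_conv h r'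
  | cons d x ih =>
    rw [List.map_cons, List.cons_append, LL, umach_acc_cons (by simp)]
    simp only [del, if_pos (hx d List.mem_cons_self), ne_eq, List.cons_ne_nil,
      not_false_eq_true, List.mem_singleton, forall_eq, true_and, Op.app]
    exact ih fun d' hd' => hx d' (List.mem_cons_of_mem _ hd')

theorem br_conv {c : Cell} {cs : List Cell} (hR : LL.Acc (.mR c.f, flat cs, []))
    (hok : CellOK c cs) (hc : Chain c.f cs) :
    ∀ r ∈ br c.f, LL.Acc (r.1, c.body ++ flat cs, r.2.app []) := by
  obtain ⟨hx, hr, hd, hp, hs, hv⟩ := hok
  rw [acc_br]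
  refine ⟨?_, (pal_iff _ _).2 hp, ?_, (ver_iff _ _ _ hr).2 hv⟩
  · obtain ⟨d, x, hxx⟩ := List.exists_cons_of_ne_nil hx
    rw [Cell.body, hxx, List.map_cons, List.append_assoc, List.cons_append, LL,
      umach_acc_cons (by simp)]
    have hd1 : Dig c.f d = true := hd d (by rw [hxx]; exact List.mem_cons_self)
    simp only [del, if_pos hd1, ne_eq, List.cons_ne_nil, not_false_eq_true, List.mem_singleton,
      forall_eq, true_and, Op.app]
    apply mL_conv hR hr
    intro d' hd'
    exact hd d' (by rw [hxx]; exact List.mem_cons_of_mem _ hd')
  · cases cs with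
    | nil => exact suc_last c
    | cons c' cs' =>
      rw [suc_iff _ _ _ (chain_head hc), hp, List.reverse_reverse]
      exact hs

/-- Conversely, the main branch accepts. -/
theorem main_conv (cells : List Cell) : ∀ f, Chain f cells → LL.Acc (.mR f, flat cells, []) := by
  induction cells with
  | nil =>
    intro f h
    rw [flat, LL, umach_acc_nil (by simp)]
    simp [eps, h.1, h.2]
  | cons c cs ih =>
    intro f h
    obtain ⟨hn, hok, hc⟩ := h
    rw [flat, LL, umach_acc_cons (by simp)]
    simp only [del, if_pos hn]
    exact ⟨by simp [br], br_conv (ih c.f hc) hok hc⟩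

/-- Description of the accepted language. -/
theorem LL_lang (w : List Let) : w ∈ LL.lang ↔
    ∃ c cs, w = flat (c :: cs) ∧ First c.f = true ∧ CellOK c cs ∧ Chain c.f cs := by
  show LL.Acc (.init, w, []) ↔ _
  constructor
  · intro h
    cases w with
    | nil =>
      rw [LL, umach_acc_nil (by simp)] at h
      simp [eps] at h
    | cons a y =>
      rw [LL, umach_acc_cons (by simp)] at h
      obtain ⟨h1, h2⟩ := h
      cases a with
      | l d => simp [del] at h1
      | r d => simp [del] at h1
      | hd g =>
        by_cases hn : First g = true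
        · simp only [del, if_pos hn] at h2
          rw [← LL, acc_br] at h2
          obtain ⟨b1, b2, b3, b4⟩ := h2
          obtain ⟨x, r, cells, hx, hr, e, hd, hc⟩ := (main_struct y).2.2 g b1
          have e' : y = (⟨g, x, r⟩ : Cell).body ++ flat cells := by
            rw [e, Cell.body, List.append_assoc]
          rw [e'] at b2 b3 b4
          exact ⟨⟨g, x, r⟩, cells, by rw [e']; rfl, hn, cellOK_of hx hr hd hc b2 b3 b4, hc⟩
        · simp only [del, if_neg hn] at h1
          exact absurd rfl h1
  · rintro ⟨c, cs, rfl, hn, hok, hc⟩
    rw [flat, LL, umach_acc_cons (by simp)]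
    simp only [del, if_pos hn]
    exact ⟨by simp [br], br_conv (main_conv cs c.f hc) hok hc⟩

/-! ### Heights -/

/-- States that never push and lead only to such states. -/
def NP : St → Prop
  | .v0 _ => True
  | .v1 _ => True
  | .cmp => True
  | .sC _ _ => True
  | .fin => True
  | _ => False

theorem np_del {q : St} (hq : NP q) (a : Let) (γ : Option Bool) :
    ∀ r ∈ del q a γ, NP r.1 ∧ (r.2 = .stay ∨ r.2 = .pop) := by
  intro r hr
  rcases q with _ | _ | _ | _ | _ | _ | ⟨z, c⟩ | e | e | e | _ | _ <;>
    simp only [NP] at hq <;>
    rcases a with g | d | d <;> rcases γ with _ | γ <;>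
    simp only [del, spawn] at hr <;>
    (try split_ifs at hr) <;>
    simp only [List.mem_singleton, List.mem_cons, List.not_mem_nil, or_false] at hr <;>
    (try (rcases hr with rfl | rfl)) <;>
    first
    | exact ⟨trivial, Or.inl rfl⟩
    | exact ⟨trivial, Or.inr rfl⟩

theorem hb_np {h : ℕ} (y : List Let) : ∀ q s, NP q → s.length ≤ h → HB LL h (q, y, s) := by
  induction y with
  | nil => intro q s _ hs; exact umach_hb_nil hs
  | cons a y ih =>
    intro q s hq hs
    refine umach_hb_cons hs fun r hr => ?_
    obtain ⟨h1, h2⟩ := np_del hq a _ r hr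
    apply ih _ _ h1
    rcases h2 with h2 | h2
    · rw [h2]; exact hs
    · rw [h2]; simp only [Op.app, List.length_tail]; omega

theorem hb_nil {h : ℕ} {q : St} {s : List Bool} (hs : s.length ≤ h) : HB LL h (q, [], s) :=
  umach_hb_nil hs

theorem hb_pal_r {h : ℕ} (r : List Bool) (cs : List Cell) : ∀ s : List Bool, s.length ≤ h →
    HB LL h (.pal, r.map .r ++ flat cs, s) := by
  induction r with
  | nil =>
    intro s hs
    cases cs with
    | nil => exact hb_nil hs
    | cons c cs =>
      refine umach_hb_cons hs fun r hr => ?_
      cases s with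
      | nil =>
        simp only [del, List.head?_nil, List.mem_singleton] at hr
        subst hr
        exact umach_hb_F hs
      | cons g s => simp [del] at hr
  | cons d r ih =>
    intro s hs
    refine umach_hb_cons hs fun p hp => ?_
    cases s with
    | nil => simp [del] at hp
    | cons g s =>
      by_cases hg : g = d
      · simp only [del, List.head?_cons, if_pos hg, List.mem_singleton] at hp
        subst hp
        apply ih
        simp only [Op.app, List.tail_cons]
        simp only [List.length_cons] at hs
        omega
      · simp [del, hg] at hp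

theorem hb_pal {h : ℕ} (x r : List Bool) (cs : List Cell) : ∀ s : List Bool,
    x.length + s.length ≤ h → HB LL h (.pal, x.map .l ++ (r.map .r ++ flat cs), s) := by
  induction x with
  | nil =>
    intro s hs
    apply hb_pal_r
    simpa using hs
  | cons d x ih =>
    intro s hs
    simp only [List.length_cons] at hs
    refine umach_hb_cons (by omega) fun p hp => ?_
    simp only [del, List.mem_singleton] at hp
    subst hp
    apply ih
    simp only [Op.app, List.length_cons]
    omega

theorem hb_suc_r {h : ℕ} (r : List Bool) (cs : List Cell) : ∀ s : List Bool,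
    r.length + s.length ≤ h → HB LL h (.suc, r.map .r ++ flat cs, s) := by
  induction r with
  | nil =>
    intro s hs
    simp only [List.length_nil] at hs
    cases cs with
    | nil => exact hb_nil (by omega)
    | cons c cs =>
      refine umach_hb_cons (by omega) fun r hr => ?_
      simp only [del, List.mem_singleton] at hr
      subst hr
      exact hb_np _ _ _ trivial (by simp only [Op.app]; omega)
  | cons d r ih =>
    intro s hs
    simp only [List.length_cons] at hs
    refine umach_hb_cons (by omega) fun p hp => ?_
    simp only [del, List.mem_singleton] at hp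
    subst hp
    apply ih
    simp only [Op.app, List.length_cons]
    omega

theorem hb_suc {h : ℕ} (x r : List Bool) (cs : List Cell) (hr : r.length ≤ h) :
    HB LL h (.suc, x.map .l ++ (r.map .r ++ flat cs), []) := by
  induction x with
  | nil => exact hb_suc_r r cs [] (by simpa using hr)
  | cons d x ih =>
    refine umach_hb_cons (by simp) fun p hp => ?_
    simp only [del, List.mem_singleton] at hp
    subst hp
    exact ih

theorem hb_ver {h : ℕ} (e : Bool) (x : List Bool) (y : List Let)
    (hy : ∀ s : List Bool, s.length ≤ h → HB LL h (.vP e, y, s)) : ∀ s : List Bool,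
    x.length + s.length ≤ h → HB LL h (.vP e, x.map .l ++ y, s) := by
  induction x with
  | nil =>
    intro s hs
    apply hy
    simpa using hs
  | cons d x ih =>
    intro s hs
    simp only [List.length_cons] at hs
    refine umach_hb_cons (by omega) fun p hp => ?_
    simp only [del, List.mem_singleton] at hp
    subst hp
    apply ih
    simp only [Op.app, List.length_cons]
    omega

theorem hb_ver_r {h : ℕ} (e : Bool) (r : List Bool) (hr : r ≠ []) (y : List Let) (s : List Bool)
    (hs : s.length ≤ h) : HB LL h (.vP e, r.map .r ++ y, s) := by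
  obtain ⟨d, r', rfl⟩ := List.exists_cons_of_ne_nil hr
  refine umach_hb_cons hs fun p hp => ?_
  simp only [del, List.mem_singleton] at hp
  subst hp
  exact hb_np _ _ _ trivial (by simpa [Op.app] using hs)

theorem hb_br {h : ℕ} {c : Cell} {cs : List Cell} (hr : c.r ≠ []) (h1 : c.x.length ≤ h)
    (h2 : c.r.length ≤ h) (hm : ∀ f, HB LL h (.mR f, flat cs, [])) :
    ∀ r ∈ br c.f, HB LL h (r.1, c.body ++ flat cs, r.2.app []) := by
  intro p hp
  have e : c.body ++ flat cs = c.x.map .l ++ (c.r.map .r ++ flat cs) := by
    rw [Cell.body, List.append_assoc]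
  rw [e]
  simp only [br, List.mem_cons, List.not_mem_nil, or_false] at hp
  rcases hp with rfl | rfl | rfl | rfl
  · have hR : ∀ f (r : List Bool), HB LL h (.mR f, r.map .r ++ flat cs, []) := by
      intro f r
      induction r with
      | nil => exact hm f
      | cons d r ih =>
        refine umach_hb_cons (by simp) fun p hp => ?_
        simp only [del, List.mem_singleton] at hp
        subst hp
        exact ih
    have hL : ∀ f (x r : List Bool), HB LL h (.mL f, x.map .l ++ (r.map .r ++ flat cs), []) ∧
        (r ≠ [] → HB LL h (.mH f, x.map .l ++ (r.map .r ++ flat cs), [])) := by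
      intro f x
      induction x with
      | nil =>
        intro r
        constructor
        · cases r with
          | nil =>
            cases cs with
            | nil => exact hb_nil (by simp)
            | cons c cs =>
              refine umach_hb_cons (by simp) fun p hp => ?_
              simp [del] at hp
          | cons d r =>
            refine umach_hb_cons (by simp) fun p hp => ?_
            simp only [del, List.mem_singleton] at hp
            subst hp
            exact hR f r
        · intro hr
          obtain ⟨d, r', rfl⟩ := List.exists_cons_of_ne_nil hr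
          refine umach_hb_cons (by simp) fun p hp => ?_
          simp [del] at hp
      | cons d x ih =>
        intro r
        constructor
        · refine umach_hb_cons (by simp) fun p hp => ?_
          by_cases hd : Dig f d = true
          · simp only [del, if_pos hd, List.mem_singleton] at hp
            subst hp
            exact (ih r).1
          · simp [del, hd] at hp
        · intro _
          refine umach_hb_cons (by simp) fun p hp => ?_
          by_cases hd : Dig f d = true
          · simp only [del, if_pos hd, List.mem_singleton] at hp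
            subst hp
            exact (ih r).1
          · simp [del, hd] at hp
    exact (hL c.f c.x c.r).2 hr
  · exact hb_pal _ _ _ _ (by simpa [Op.app] using h1)
  · exact hb_suc _ _ _ h2
  · exact hb_ver _ _ _ (fun s hs => hb_ver_r _ _ hr _ s hs) _ (by simpa [Op.app] using h1)

theorem hb_main {h : ℕ} (cells : List Cell) (hc : ∀ c ∈ cells, c.r ≠ [] ∧ c.x.length ≤ h ∧
    c.r.length ≤ h) : ∀ f, HB LL h (.mR f, flat cells, []) := by
  induction cells with
  | nil => intro f; exact hb_nil (by simp)
  | cons c cs ih =>
    intro f
    have ih' := ih fun c' hc' => hc c' (List.mem_cons_of_mem _ hc')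
    obtain ⟨h1, h2, h3⟩ := hc c List.mem_cons_self
    refine umach_hb_cons (by simp) fun p hp => ?_
    by_cases hn : Next f c.f = true
    · simp only [del, if_pos hn] at hp
      exact hb_br h1 h2 h3 ih' p hp
    · simp [del, hn] at hp

/-- Heights on well-formed inputs. -/
theorem hb_init {h : ℕ} (cells : List Cell) (hc : ∀ c ∈ cells, c.r ≠ [] ∧ c.x.length ≤ h ∧
    c.r.length ≤ h) : HB LL h (LL.init (flat cells)) := by
  cases cells with
  | nil => exact hb_nil (by simp)
  | cons c cs =>
    obtain ⟨h1, h2, h3⟩ := hc c List.mem_cons_self
    show HB LL h (.init, .hd c.f :: (c.body ++ flat cs), [])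
    refine umach_hb_cons (by simp) fun p hp => ?_
    by_cases hn : First c.f = true
    · simp only [del, if_pos hn] at hp
      exact hb_br h1 h2 h3 (hb_main cs fun c' hc' => hc c' (List.mem_cons_of_mem _ hc')) p hp
    · simp [del, hn] at hp

end Q222.PS
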