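import Pool.Agent.Q222.PS.Reg

namespace Q222.PS

variable {A Q Γ : Type} (M : PDA A Q Γ)

/-- `SegW M γ p q x b`: reading `x` (with `b` the symbol scanned afterwards) the machine can go
from state `p` to state `q` above any store with top symbol `γ`. -/
def SegW (γ : Option Γ) (p q : Q) (x : List A) (b : Option A) : Prop :=
  ∀ (z : List A) (s : List Γ), z.head? = b → s.head? = γ → M.Reach (p, x ++ z, s) (q, z, s)

/-- `AccW M γ q y`: from state `q` with remaining input `y` an accepting state is reachable above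
any store with top symbol `γ`. -/
def AccW (γ : Option Γ) (q : Q) (y : List A) : Prop :=
  ∀ s : List Γ, s.head? = γ → ∃ c, M.Reach (q, y, s) c ∧ c.1 ∈ M.acc

variable {M}

theorem SegW.refl (γ : Option Γ) (p : Q) (b : Option A) : SegW M γ p p [] b :=
  fun _ _ _ _ => .refl

theorem SegW.trans {γ : Option Γ} {p q r : Q} {x y : List A} {b b' : Option A}
    (h1 : SegW M γ p q x b) (h2 : SegW M γ q r y b') (hb : ∀ z : List A, z.head? = b' →
      (y ++ z).head? = b) : SegW M γ p r (x ++ y) b' := by
  intro z s hz hs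
  rw [List.append_assoc]
  exact (h1 (y ++ z) s (hb z hz) hs).trans (h2 z s hz hs)

/-- Scanned symbol of a word followed by a symbol depends only on the following symbol. -/
theorem head_congr {u z z' : List A} (h : z.head? = z'.head?) :
    (u ++ z).head? = (u ++ z').head? := by
  cases u with
  | nil => exact h
  | cons a u => rfl

/-- A stay step is a segment. -/
theorem SegW.of_stay {γ : Option Γ} {p q : Q} {u : List A} {b : Option A}
    (h : M.Mv p u b γ q .stay) : SegW M γ p q u b :=
  fun _ _ hz hs => Relation.ReflTransGen.single (h.step hz hs)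

/-- A pop at the empty store is a segment. -/
theorem SegW.of_pop_nil {p q : Q} {u : List A} {b : Option A}
    (h : M.Mv p u b none q .pop) : SegW M none p q u b := by
  intro z s hz hs
  have : s = [] := by cases s with
    | nil => rfl
    | cons a s => simp at hs
  subst this
  exact Relation.ReflTransGen.single (h.step hz rfl)

/-- Push, segment, pop is a segment one level below. -/
theorem SegW.push_pop {γ : Option Γ} {g : Γ} {p p1 p2 q : Q} {u x v : List A}
    {b1 b2 b : Option A} (h1 : M.Mv p u b1 γ p1 (.push g)) (h2 : SegW M (some g) p1 p2 x b2)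
    (h3 : M.Mv p2 v b (some g) q .pop) (e1 : ∀ z : List A, z.head? = b →
      (x ++ (v ++ z)).head? = b1) (e2 : ∀ z : List A, z.head? = b → (v ++ z).head? = b2) :
    SegW M γ p q (u ++ (x ++ v)) b := by
  intro z s hz hs
  have s1 := h1.step (z := x ++ (v ++ z)) (s := s) (e1 z hz) hs
  have s2 := h2 (v ++ z) (g :: s) (e2 z hz) rfl
  have s3 := h3.step (z := z) (s := g :: s) hz rfl
  have e : u ++ (x ++ v) ++ z = u ++ (x ++ (v ++ z)) := by simp
  rw [e]
  exact (Relation.ReflTransGen.single s1).trans (s2.trans (Relation.ReflTransGen.single s3))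

/-! ### Decomposition of the way up -/

variable (M)

/-- Structure of the computations leading to a configuration. -/
def UpC (w : List A) : List Γ → Q → List A → Prop
  | [], q, y => ∃ x, w = x ++ y ∧ SegW M none M.start q x y.head?
  | g :: s, q, y => ∃ p y1 u p1 y2 x, UpC w s p y1 ∧ y1 = u ++ y2 ∧
      M.Mv p u y2.head? s.head? p1 (.push g) ∧ y2 = x ++ y ∧ SegW M (some g) p1 q x y.head?

variable {M}

theorem UpC.ext {w : List A} {s : List Γ} {q r : Q} {x y : List A}
    (h : UpC M w s q (x ++ y)) (hs : SegW M s.head? q r x y.head?) : UpC M w s r y := by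
  cases s with
  | nil =>
    obtain ⟨x0, e, h0⟩ := h
    refine ⟨x0 ++ x, by rw [e, List.append_assoc], ?_⟩
    exact h0.trans hs fun z hz => head_congr hz
  | cons g s =>
    obtain ⟨p, y1, u, p1, y2, x0, h1, e1, h2, e2, h3⟩ := h
    refine ⟨p, y1, u, p1, y2, x0 ++ x, h1, e1, h2, by rw [e2, List.append_assoc], ?_⟩
    exact h3.trans hs fun z hz => head_congr hz

theorem upC_of_reach {w : List A} {c : Cfg A Q Γ} (h : M.Reach (M.init w) c) :
    UpC M w c.2.2 c.1 c.2.1 := by
  induction h with
  | refl => exact ⟨[], rfl, SegW.refl _ _ _⟩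
  | tail _ hstep ih =>
    rename_i c d _
    obtain ⟨q, y, s⟩ := c
    obtain ⟨q', y', s'⟩ := d
    obtain ⟨u, o, e1, hm, e2⟩ := hstep
    simp only at e1 e2 hm ih ⊢
    subst e1
    cases o with
    | stay =>
      have : s' = s := e2
      subst this
      exact ih.ext (SegW.of_stay hm)
    | push g =>
      have : s' = g :: s := e2
      subst this
      exact ⟨q, u ++ y', u, q', y', [], ih, rfl, hm, rfl, SegW.refl _ _ _⟩
    | pop =>
      cases s with
      | nil =>
        have : s' = [] := e2
        subst this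
        exact ih.ext (SegW.of_pop_nil hm)
      | cons g s =>
        have : s' = s := e2
        subst this
        obtain ⟨p, y1, v, p1, y2, x, h1, f1, h2, f2, h3⟩ := ih
        subst f2 f1
        have key : SegW M s'.head? p q' (v ++ (x ++ u)) y'.head? := by
          refine SegW.push_pop h2 h3 hm ?_ ?_
          · intro z hz
            rw [← List.append_assoc x u z, ← List.append_assoc x u y']
            exact head_congr hz
          · intro z hz; exact head_congr hz
        have h1' : UpC M w s' p ((v ++ (x ++ u)) ++ y') := by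
          have e : (v ++ (x ++ u)) ++ y' = v ++ (x ++ (u ++ y')) := by simp
          rw [e]; exact h1
        exact h1'.ext key

/-! ### Decomposition of the way to acceptance -/

variable (M)

/-- Structure of the computations from a configuration to acceptance. -/
def DnC : List Γ → Q → List A → Prop
  | [], q, y => AccW M none q y
  | g :: s, q, y => AccW M (some g) q y ∨ ∃ r x y1 u y2 r', y = x ++ y1 ∧
      SegW M (some g) q r x y1.head? ∧ y1 = u ++ y2 ∧ M.Mv r u y2.head? (some g) r' .pop ∧
      DnC s r' y2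

variable {M}

theorem AccW.pre {γ : Option Γ} {q r : Q} {x y : List A} (h : SegW M γ q r x y.head?)
    (h2 : AccW M γ r y) : AccW M γ q (x ++ y) := by
  intro s hs
  obtain ⟨c, h3, h4⟩ := h2 s hs
  exact ⟨c, (h y s rfl hs).trans h3, h4⟩

theorem DnC.pre {s : List Γ} {q r : Q} {x y : List A} (hs : SegW M s.head? q r x y.head?)
    (h : DnC M s r y) : DnC M s q (x ++ y) := by
  cases s with
  | nil => exact AccW.pre hs h
  | cons g s =>
    rcases h with h | ⟨r1, x1, y1, u, y2, r', e1, h1, e2, h2, h3⟩
    · exact Or.inl (AccW.pre hs h)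
    · subst e1
      refine Or.inr ⟨r1, x ++ x1, y1, u, y2, r', by rw [List.append_assoc], ?_, e2, h2, h3⟩
      exact hs.trans h1 fun z hz => head_congr hz

theorem dnC_of_reach {c d : Cfg A Q Γ} (h : M.Reach c d) (hd : d.1 ∈ M.acc) :
    DnC M c.2.2 c.1 c.2.1 := by
  induction h using Relation.ReflTransGen.head_induction_on with
  | refl =>
    obtain ⟨q, y, s⟩ := d
    cases s with
    | nil => exact fun s _ => ⟨_, .refl, hd⟩
    | cons g s => exact Or.inl fun s _ => ⟨_, .refl, hd⟩
  | head hstep _ ih =>
    rename_i c c' _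
    obtain ⟨q, y, s⟩ := c
    obtain ⟨q', y', s'⟩ := c'
    obtain ⟨u, o, e1, hm, e2⟩ := hstep
    simp only at e1 e2 hm ih ⊢
    subst e1
    cases o with
    | stay =>
      have : s' = s := e2
      subst this
      exact DnC.pre (SegW.of_stay hm) ih
    | push g =>
      have : s' = g :: s := e2
      subst this
      rcases ih with ih | ⟨r1, x1, y1, v, y2, r', f1, h1, f2, h2, h3⟩
      · have key : AccW M s.head? q (u ++ y') := by
          intro t ht
          obtain ⟨c, h3, h4⟩ := ih (g :: t) rfl
          exact ⟨c, Relation.ReflTransGen.head (hm.step rfl ht) h3, h4⟩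
        cases s with
        | nil => exact key
        | cons g' s => exact Or.inl key
      · subst f2 f1
        have key : SegW M s.head? q r' (u ++ (x1 ++ v)) y2.head? := by
          refine SegW.push_pop hm h1 h2 ?_ ?_
          · intro z hz
            rw [← List.append_assoc x1 v z, ← List.append_assoc x1 v y2]
            exact head_congr hz
          · intro z hz; exact head_congr hz
        have := DnC.pre key h3
        have e : (u ++ (x1 ++ v)) ++ y2 = u ++ (x1 ++ (v ++ y2)) := by simp
        rw [e] at this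
        exact this
    | pop =>
      cases s with
      | nil =>
        have : s' = [] := e2
        subst this
        exact DnC.pre (s := []) (SegW.of_pop_nil hm) ih
      | cons g s =>
        have : s' = s := e2
        subst this
        exact Or.inr ⟨q, [], u ++ y', u, y', q', rfl, SegW.refl _ _ _, rfl, hm, ih⟩

/-! ### Short witnesses -/

theorem exists_short {ι : Type} [Finite ι] (P : ι → List A → Prop) :
    ∃ D : ℕ, ∀ i x, P i x → ∃ x', P i x' ∧ x'.length ≤ D := by
  classical
  have : ∀ i, ∃ d : ℕ, ∀ x, P i x → ∃ x', P i x' ∧ x'.length ≤ d := by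
    intro i
    by_cases h : ∃ x, P i x
    · obtain ⟨x, hx⟩ := h
      exact ⟨x.length, fun _ _ => ⟨x, hx, le_rfl⟩⟩
    · exact ⟨0, fun x hx => absurd ⟨x, hx⟩ h⟩
  choose d hd using this
  obtain ⟨D, hD⟩ := (Set.finite_range d).bddAbove
  refine ⟨D, fun i x hx => ?_⟩
  obtain ⟨x', h1, h2⟩ := hd i x hx
  exact ⟨x', h1, h2.trans (hD ⟨i, rfl⟩)⟩

/-- There is a constant `D` such that every segment can be replaced by one of length at most `D`
with the same scanned symbol at the beginning, and the same for accepting parts. -/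
theorem exists_D [Finite A] [Finite Q] [Finite Γ] (M : PDA A Q Γ) : ∃ D : ℕ,
    (∀ γ p q x (y : List A), SegW M γ p q x y.head? → ∃ x', SegW M γ p q x' y.head? ∧
      (x' ++ y).head? = (x ++ y).head? ∧ x'.length ≤ D) ∧
    (∀ γ q y, AccW M γ q y → ∃ y', AccW M γ q y' ∧ y'.head? = y.head? ∧ y'.length ≤ D) := by
  obtain ⟨D1, h1⟩ := exists_short (A := A) (ι := Option Γ × Q × Q × Option A × Option A)
    (fun i x => SegW M i.1 i.2.1 i.2.2.1 x i.2.2.2.1 ∧
      ∀ z : List A, z.head? = i.2.2.2.1 → (x ++ z).head? = i.2.2.2.2)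
  obtain ⟨D2, h2⟩ := exists_short (A := A) (ι := Option Γ × Q × Option A)
    (fun i y => AccW M i.1 i.2.1 y ∧ y.head? = i.2.2)
  refine ⟨max D1 D2, ?_, ?_⟩
  · intro γ p q x y h
    obtain ⟨x', ⟨e1, e2⟩, e3⟩ := h1 (γ, p, q, y.head?, (x ++ y).head?) x
      ⟨h, fun z hz => head_congr hz⟩
    exact ⟨x', e1, e2 y rfl, e3.trans (le_max_left _ _)⟩
  · intro γ q y h
    obtain ⟨y', ⟨e1, e2⟩, e3⟩ := h2 (γ, q, y.head?) y ⟨h, rfl⟩
    exact ⟨y', e1, e2, e3.trans (le_max_right _ _)⟩

theorem Mv_len {M : PDA A Q Γ} {q : Q} {u : List A} {b : Option A} {γ : Option Γ} {q' : Q}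
    {o : Op Γ} (h : M.Mv q u b γ q' o) : u.length ≤ 1 := by
  obtain ⟨-, ⟨rfl, -⟩ | ⟨a, rfl, -⟩⟩ := h <;> simp

/-- Every reachable state-store pair is reachable on a short input. -/
theorem short_up {D : ℕ} (hD : ∀ γ p q x (y : List A), SegW M γ p q x y.head? →
      ∃ x', SegW M γ p q x' y.head? ∧ (x' ++ y).head? = (x ++ y).head? ∧ x'.length ≤ D)
    {w : List A} (s : List Γ) : ∀ q y, UpC M w s q y → ∃ x, x.length ≤ (D + 1) * (s.length + 1) ∧
      ∀ z : List A, z.head? = y.head? → M.Reach (M.start, x ++ z, []) (q, z, s) := by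
  induction s with
  | nil =>
    rintro q y ⟨x, -, h⟩
    obtain ⟨x', h1, -, h3⟩ := hD _ _ _ _ _ h
    refine ⟨x', by simp; omega, fun z hz => h1 z [] hz rfl⟩
  | cons g s ih =>
    rintro q y ⟨p, y1, u, p1, y2, x, h1, e1, h2, e2, h3⟩
    obtain ⟨x0, h4, h5⟩ := ih p y1 h1
    obtain ⟨x', h6, h7, h8⟩ := hD _ _ _ _ _ h3
    refine ⟨x0 ++ (u ++ x'), ?_, ?_⟩
    · have := Mv_len h2
      simp only [List.length_append, List.length_cons]
      nlinarith
    · intro z hz
      have hd2 : (x' ++ z).head? = y2.head? := by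
        rw [e2, ← h7]; exact head_congr hz
      have hd1 : (u ++ (x' ++ z)).head? = y1.head? := by
        rw [e1]; exact head_congr hd2
      have e : x0 ++ (u ++ x') ++ z = x0 ++ (u ++ (x' ++ z)) := by simp
      rw [e]
      refine (h5 _ hd1).trans (Relation.ReflTransGen.head (h2.step hd2 rfl) ?_)
      exact h6 z (g :: s) hz rfl

/-- The way to acceptance can be made short. -/
theorem short_dn {D : ℕ} (hD : ∀ γ p q x (y : List A), SegW M γ p q x y.head? →
      ∃ x', SegW M γ p q x' y.head? ∧ (x' ++ y).head? = (x ++ y).head? ∧ x'.length ≤ D)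
    (hD2 : ∀ γ q y, AccW M γ q y → ∃ y', AccW M γ q y' ∧ y'.head? = y.head? ∧ y'.length ≤ D)
    (s : List Γ) : ∀ q y, DnC M s q y → ∃ y' : List A, y'.length ≤ (D + 1) * (s.length + 1) ∧
      y'.head? = y.head? ∧ ∃ c, M.Reach (q, y', s) c ∧ c.1 ∈ M.acc := by
  induction s with
  | nil =>
    intro q y h
    obtain ⟨y', h1, h2, h3⟩ := hD2 _ _ _ h
    exact ⟨y', by simp; omega, h2, h1 [] rfl⟩
  | cons g s ih =>
    intro q y h
    rcases h with h | ⟨r, x, y1, u, y2, r', e1, h1, e2, h2, h3⟩
    · obtain ⟨y', h1, h2, h3⟩ := hD2 _ _ _ h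
      refine ⟨y', ?_, h2, h1 (g :: s) rfl⟩
      simp only [List.length_cons]
      nlinarith
    · obtain ⟨y2', h4, h5, c, h6, h7⟩ := ih r' y2 h3
      obtain ⟨x', f1, f2, f3⟩ := hD _ _ _ _ _ h1
      have hd1 : (u ++ y2').head? = y1.head? := by rw [e2]; exact head_congr h5
      refine ⟨x' ++ (u ++ y2'), ?_, ?_, c, ?_, h7⟩
      · have := Mv_len h2
        simp only [List.length_append, List.length_cons]
        nlinarith
      · rw [e1, ← f2]; exact head_congr hd1
      · refine (f1 _ (g :: s) hd1 rfl).trans (Relation.ReflTransGen.head (h2.step h5 rfl) h6)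

end Q222.PS
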