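import Pool.Agent.Q222.PS.AnBn

namespace Q222.PS

variable {A Q Γ : Type}

/-- A universal machine that moves its head in every step on a letter and decides at once at the
endmarker: `δ` gives the successors on a letter, `ε` the decision at the endmarker, `F` is the
accepting state. -/
def umach (st F : Q) (δ : Q → A → Option Γ → List (Q × Op Γ)) (ε : Q → Option Γ → Bool) :
    PDA A Q Γ where
  start := st
  univ := Set.univ
  acc := {F}
  tr q b γ := match b with
    | some a => {p | ∃ r ∈ δ q a γ, p = (r.1, true, r.2)}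
    | none => {p | ε q γ = true ∧ p = (F, false, .stay)}

variable {st F : Q} {δ : Q → A → Option Γ → List (Q × Op Γ)} {ε : Q → Option Γ → Bool}

theorem umach_realtime : (umach st F δ ε).Realtime := by
  apply realtime_of
  intro q b γ q' o h
  cases b with
  | some a =>
    obtain ⟨r, _, hr⟩ := h
    simp at hr
  | none =>
    obtain ⟨_, hr⟩ := h
    have : q' = F := (Prod.mk.inj hr).1
    exact this

theorem umach_step_cons {q : Q} (hq : q ≠ F) {a : A} {y : List A} {s : List Γ} {c : Cfg A Q Γ} :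
    (umach st F δ ε).Step (q, a :: y, s) c ↔ ∃ r ∈ δ q a s.head?, c = (r.1, y, r.2.app s) := by
  constructor
  · rintro ⟨u, o, h1, ⟨_, h2⟩, h3⟩
    obtain ⟨q', y', s'⟩ := c
    simp only at h1 h2 h3
    rcases h2 with ⟨rfl, h2⟩ | ⟨b, rfl, h2⟩
    · have e : y' = a :: y := h1.symm
      rw [e] at h2
      obtain ⟨r, _, hr⟩ := h2
      simp at hr
    · have e : a :: y = b :: y' := h1
      obtain ⟨rfl, rfl⟩ := List.cons.inj e
      obtain ⟨r, hr1, hr2⟩ := h2
      simp only [Prod.mk.injEq, true_and] at hr2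
      obtain ⟨rfl, rfl⟩ := hr2
      exact ⟨r, hr1, by rw [h3]⟩
  · rintro ⟨r, hr, rfl⟩
    exact ⟨[a], r.2, rfl, ⟨hq, Or.inr ⟨a, rfl, ⟨r, hr, rfl⟩⟩⟩, rfl⟩

theorem umach_step_nil {q : Q} (hq : q ≠ F) {s : List Γ} {c : Cfg A Q Γ} :
    (umach st F δ ε).Step (q, [], s) c ↔ ε q s.head? = true ∧ c = (F, [], s) := by
  constructor
  · rintro ⟨u, o, h1, ⟨_, h2⟩, h3⟩
    obtain ⟨q', y', s'⟩ := c
    simp only at h1 h2 h3
    have e : u = [] ∧ y' = [] := by simpa using h1.symm
    obtain ⟨rfl, rfl⟩ := e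
    rcases h2 with ⟨_, h2⟩ | ⟨b, h2, _⟩
    · obtain ⟨h4, h5⟩ := h2
      simp only [Prod.mk.injEq, true_and] at h5
      obtain ⟨rfl, rfl⟩ := h5
      exact ⟨h4, by rw [h3]; rfl⟩
    · simp at h2
  · rintro ⟨h, rfl⟩
    exact ⟨[], .stay, rfl, ⟨hq, Or.inl ⟨rfl, h, rfl⟩⟩, rfl⟩

theorem umach_acc_F (y : List A) (s : List Γ) : (umach st F δ ε).Acc (F, y, s) := .acc _ rfl

theorem umach_acc_cons {q : Q} (hq : q ≠ F) (a : A) (y : List A) (s : List Γ) :
    (umach st F δ ε).Acc (q, a :: y, s) ↔ δ q a s.head? ≠ [] ∧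
      ∀ r ∈ δ q a s.head?, (umach st F δ ε).Acc (r.1, y, r.2.app s) := by
  constructor
  · intro h
    cases h with
    | acc _ h1 => exact absurd h1 hq
    | ex _ _ h1 => exact absurd (Set.mem_univ _) h1
    | un _ _ h1 h2 =>
      obtain ⟨c, hc⟩ := h1
      obtain ⟨r, hr, -⟩ := (umach_step_cons hq).1 hc
      refine ⟨fun h => ?_, fun r hr => h2 _ ((umach_step_cons hq).2 ⟨r, hr, rfl⟩)⟩
      rw [h] at hr
      simp at hr
  · rintro ⟨h1, h2⟩
    obtain ⟨r, hr⟩ := List.exists_mem_of_ne_nil _ h1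
    refine .un _ (Set.mem_univ _) ⟨_, (umach_step_cons hq).2 ⟨r, hr, rfl⟩⟩ fun c hc => ?_
    obtain ⟨r, hr, rfl⟩ := (umach_step_cons hq).1 hc
    exact h2 r hr

theorem umach_acc_nil {q : Q} (hq : q ≠ F) (s : List Γ) :
    (umach st F δ ε).Acc (q, [], s) ↔ ε q s.head? = true := by
  constructor
  · intro h
    cases h with
    | acc _ h1 => exact absurd h1 hq
    | ex _ _ h1 => exact absurd (Set.mem_univ _) h1
    | un _ _ h1 h2 =>
      obtain ⟨c, hc⟩ := h1
      exact ((umach_step_nil hq).1 hc).1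
  · intro h
    refine .un _ (Set.mem_univ _) ⟨_, (umach_step_nil hq).2 ⟨h, rfl⟩⟩ fun c hc => ?_
    obtain ⟨_, rfl⟩ := (umach_step_nil hq).1 hc
    exact umach_acc_F _ _

/-- All configurations reachable from `c` have height at most `h`. -/
def HB (M : PDA A Q Γ) (h : ℕ) (c : Cfg A Q Γ) : Prop := ∀ c', M.Reach c c' → c'.2.2.length ≤ h

theorem umach_hb_F {h : ℕ} {y : List A} {s : List Γ} (hs : s.length ≤ h) :
    HB (umach st F δ ε) h (F, y, s) := by
  intro c hc
  rcases Relation.ReflTransGen.cases_head hc with rfl | ⟨d, h1, _⟩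
  · exact hs
  · obtain ⟨u, o, _, ⟨h2, _⟩, _⟩ := h1
    exact absurd rfl h2

theorem umach_hb_cons {h : ℕ} {q : Q} {a : A} {y : List A} {s : List Γ} (hs : s.length ≤ h)
    (H : ∀ r ∈ δ q a s.head?, HB (umach st F δ ε) h (r.1, y, r.2.app s)) :
    HB (umach st F δ ε) h (q, a :: y, s) := by
  by_cases hq : q = F
  · rw [hq]; exact umach_hb_F hs
  intro c hc
  rcases Relation.ReflTransGen.cases_head hc with rfl | ⟨d, h1, h2⟩
  · exact hs
  · obtain ⟨r, hr, rfl⟩ := (umach_step_cons hq).1 h1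
    exact H r hr c h2

theorem umach_hb_nil {h : ℕ} {q : Q} {s : List Γ} (hs : s.length ≤ h) :
    HB (umach st F δ ε) h (q, [], s) := by
  by_cases hq : q = F
  · rw [hq]; exact umach_hb_F hs
  intro c hc
  rcases Relation.ReflTransGen.cases_head hc with rfl | ⟨d, h1, h2⟩
  · exact hs
  · obtain ⟨_, rfl⟩ := (umach_step_nil hq).1 h1
    exact umach_hb_F hs c h2

end Q222.PS
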