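import Pool.Agent.Q222.PS.Reg

namespace Q222.PS

variable {A Q Γ : Type}

theorem small_ncard [Fintype Q] [Fintype Γ] (h : ℕ) :
    (small Q Γ h).ncard ≤ Fintype.card Q * (Fintype.card Γ + 1) ^ h := by
  classical
  let f : Q × List Γ → Q × (Fin h → Option Γ) := fun p => (p.1, fun i => p.2[(i : ℕ)]?)
  have hinj : Set.InjOn f (small Q Γ h) := by
    rintro ⟨q, l⟩ hl ⟨q', l'⟩ hl' he
    have hl1 : l.length ≤ h := hl
    have hl2 : l'.length ≤ h := hl'
    obtain ⟨e1, e2⟩ := Prod.mk.inj he
    have e1' : q = q' := e1
    subst e1'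
    have : l = l' := by
      apply List.ext_getElem?
      intro i
      by_cases hi : i < h
      · exact congrFun e2 ⟨i, hi⟩
      · rw [List.getElem?_eq_none (by omega), List.getElem?_eq_none (by omega)]
    rw [this]
  have h1 : (small Q Γ h).ncard ≤ (Set.univ : Set (Q × (Fin h → Option Γ))).ncard :=
    Set.ncard_le_ncard_of_injOn f (fun _ _ => Set.mem_univ _) hinj (Set.toFinite _)
  rw [Set.ncard_univ, Nat.card_eq_fintype_card, Fintype.card_prod, Fintype.card_fun,
    Fintype.card_option, Fintype.card_fin] at h1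
  exact h1

/-- A shortest word accepted within height `H` but not within height `h` is short. -/
theorem short_diff [Fintype Q] [Fintype Γ] (M : PDA A Q Γ) {h H : ℕ} (hh : h ≤ H) {w : List A}
    (h1 : w ∈ langIn M H) (h2 : w ∉ langIn M h) :
    ∃ v, v ∈ langIn M H ∧ v ∉ langIn M h ∧
      v.length < 2 ^ (2 * (Fintype.card Q * (Fintype.card Γ + 1) ^ H)) := by
  classical
  have hex : ∃ n, ∃ v : List A, v.length = n ∧ v ∈ langIn M H ∧ v ∉ langIn M h :=
    ⟨w.length, w, rfl, h1, h2⟩
  obtain ⟨v, hv, hv1, hv2⟩ := Nat.find_spec hex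
  have hmin : ∀ u : List A, u ∈ langIn M H → u ∉ langIn M h → v.length ≤ u.length := by
    intro u hu1 hu2
    rw [hv]
    exact Nat.find_min' hex ⟨u, rfl, hu1, hu2⟩
  refine ⟨v, hv1, hv2, ?_⟩
  let κ : List A → Set (Q × List Γ) × Set (Q × List Γ) := fun y => (kap M H y, kap M h y)
  have hcong : ∀ u y y', κ y = κ y' → κ (u ++ y) = κ (u ++ y') := by
    intro u
    induction u with
    | nil => intro y y' e; exact e
    | cons a u ih =>
      intro y y' e
      obtain ⟨e1, e2⟩ := Prod.mk.inj (ih y y' e)
      exact Prod.ext (kap_cons M H a _ _ e1) (kap_cons M h a _ _ e2)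
  have hdist : ∀ i j : ℕ, i < j → j ≤ v.length → κ (v.drop i) ≠ κ (v.drop j) := by
    intro i j hij hj he
    have e1 := hcong (v.take i) _ _ he
    rw [List.take_append_drop] at e1
    obtain ⟨e2, e3⟩ := Prod.mk.inj e1
    have m1 : v.take i ++ v.drop j ∈ langIn M H := by
      have : (M.start, []) ∈ kap M H v := hv1
      rw [e2] at this
      exact this
    have m2 : v.take i ++ v.drop j ∉ langIn M h := by
      intro hc
      have : (M.start, []) ∈ kap M h (v.take i ++ v.drop j) := hc
      rw [← e3] at this
      exact hv2 this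
    have := hmin _ m1 m2
    rw [List.length_append, List.length_take, List.length_drop] at this
    omega
  -- count
  let B := {κ : Set (Q × List Γ) | κ ⊆ small Q Γ H}
  have hBfin : B.Finite := (small_finite H).finite_subsets
  have hBcard : B.ncard = 2 ^ (small Q Γ H).ncard := by
    have : B = 𝒫 (small Q Γ H) := rfl
    rw [this, Set.ncard_powerset _ (small_finite H)]
  have hmaps : ∀ i ∈ Finset.range (v.length + 1), κ (v.drop i) ∈ B ×ˢ B := by
    intro i _
    refine ⟨kap_sub M H _, fun p hp => ?_⟩
    have : p.2.length ≤ h := kap_sub M h _ hp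
    exact this.trans hh
  have hinj : Set.InjOn (fun i => κ (v.drop i)) (Finset.range (v.length + 1) : Set ℕ) := by
    intro i hi j hj he
    simp only [Finset.coe_range, Set.mem_Iio] at hi hj
    rcases lt_trichotomy i j with hlt | heq | hgt
    · exact absurd he (hdist i j hlt (by omega))
    · exact heq
    · exact absurd he.symm (hdist j i hgt (by omega))
  have hcard : (Finset.range (v.length + 1) : Set ℕ).ncard ≤ (B ×ˢ B).ncard :=
    Set.ncard_le_ncard_of_injOn _ hmaps hinj (hBfin.prod hBfin)
  rw [Set.ncard_coe_finset, Finset.card_range, Set.ncard_prod, hBcard, ← pow_add] at hcard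
  have h3 := small_ncard (Q := Q) (Γ := Γ) H
  calc v.length < v.length + 1 := Nat.lt_succ_self _
    _ ≤ 2 ^ ((small Q Γ H).ncard + (small Q Γ H).ncard) := hcard
    _ ≤ _ := Nat.pow_le_pow_right (by norm_num) (by omega)

/-- Weak space `o(log log n)` gives only regular languages. -/
theorem weak_regular [Fintype Q] [Fintype Γ] (M : PDA A Q Γ) (s : ℕ → ℕ) (hs : M.Weak s)
    (ho : LittleO s (fun n => Nat.log 2 (Nat.log 2 n))) : M.lang.IsRegular := by
  classical
  set K := 2 * Fintype.card Q + Fintype.card Γ + 1 with hK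
  obtain ⟨n0, hn0⟩ := Filter.eventually_atTop.1 (ho K)
  set h0 := (Finset.range n0).sup s with hh0
  have heq : M.lang = langIn M h0 := by
    ext w
    constructor
    · intro hw
      by_contra hcon
      -- the least height within which `w` is accepted
      have hex : ∃ H, w ∈ langIn M H := ⟨_, hs w hw⟩
      have hH := Nat.find_spec hex
      set H := Nat.find hex with hHdef
      have hlt : h0 < H := by
        by_contra hle
        exact hcon (PDA.AccIn.mono (not_lt.1 hle) hH)
      have hpre : w ∉ langIn M (H - 1) := Nat.find_min hex (by omega)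
      obtain ⟨v, hv1, hv2, hv3⟩ := short_diff M (Nat.sub_le H 1) hH hpre
      have hvL : v ∈ M.lang := PDA.AccIn.toAcc hv1
      have hsv : H ≤ s v.length := by
        by_contra hle
        exact hv2 (PDA.AccIn.mono (by omega) (hs v hvL))
      have hvn : n0 ≤ v.length := by
        by_contra hle
        have : s v.length ≤ h0 := Finset.le_sup (f := s) (Finset.mem_range.2 (by omega))
        omega
      have h4 : K * s v.length ≤ Nat.log 2 (Nat.log 2 v.length) := hn0 _ hvn
      have h5 : Nat.log 2 (Nat.log 2 v.length) < K * H := by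
        have hK0 : K * H ≠ 0 := Nat.mul_ne_zero (by omega) (by omega)
        apply Nat.log_lt_of_lt_pow' hK0
        have h6 : Nat.log 2 v.length < 2 * (Fintype.card Q * (Fintype.card Γ + 1) ^ H) + 1 := by
          apply Nat.log_lt_of_lt_pow' (by omega)
          exact lt_of_lt_of_le hv3 (Nat.pow_le_pow_right (by norm_num) (by omega))
        have h7 : 2 * (Fintype.card Q * (Fintype.card Γ + 1) ^ H) + 1 ≤ 2 ^ (K * H) := by
          have h8 : 2 * Fintype.card Q + 1 ≤ 2 ^ (2 * Fintype.card Q) := Nat.lt_two_pow_self
          have h9 : Fintype.card Γ + 1 ≤ 2 ^ (Fintype.card Γ + 1) := (Nat.lt_two_pow_self).le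
          have h10 : (Fintype.card Γ + 1) ^ H ≤ 2 ^ ((Fintype.card Γ + 1) * H) := by
            rw [pow_mul]; exact Nat.pow_le_pow_left h9 H
          have h11 : 1 ≤ (Fintype.card Γ + 1) ^ H := Nat.one_le_pow _ _ (by omega)
          calc 2 * (Fintype.card Q * (Fintype.card Γ + 1) ^ H) + 1
              ≤ (2 * Fintype.card Q + 1) * (Fintype.card Γ + 1) ^ H := by nlinarith
            _ ≤ 2 ^ (2 * Fintype.card Q) * 2 ^ ((Fintype.card Γ + 1) * H) :=
                Nat.mul_le_mul h8 h10
            _ = 2 ^ (2 * Fintype.card Q + (Fintype.card Γ + 1) * H) := by rw [pow_add]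
            _ ≤ 2 ^ (K * H) := by
                apply Nat.pow_le_pow_right (by norm_num)
                have : 2 * Fintype.card Q ≤ 2 * Fintype.card Q * H :=
                  Nat.le_mul_of_pos_right _ (by omega)
                calc 2 * Fintype.card Q + (Fintype.card Γ + 1) * H
                    ≤ 2 * Fintype.card Q * H + (Fintype.card Γ + 1) * H := by omega
                  _ = K * H := by rw [hK]; ring
        omega
      have h12 : K * H ≤ K * s v.length := Nat.mul_le_mul_left _ hsv
      omega
    · intro hw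
      exact PDA.AccIn.toAcc hw
  rw [heq]
  exact langIn_regular M h0

end Q222.PS
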