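import Pool.Agent.Q222.PS.Sem

namespace Q222.PS

theorem flat_len (L : List Cell) : L.length ≤ (flat L).length := by
  induction L with
  | nil => simp [flat]
  | cons c cs ih =>
    simp only [flat, List.length_cons, List.length_append]
    omega

/-- The machine works in middle space `log log n`. -/
theorem LL_middle : LL.Middle (fun n => Nat.log 2 (Nat.log 2 n)) := by
  intro w hw
  obtain ⟨c, cs, rfl, hF, hok, hch⟩ := (LL_lang w).1 hw
  obtain ⟨hOK, hNx, ho, hao⟩ := chain_index cs c hok hch
  have hne : (c :: cs) ≠ [] := by simp
  have S := str_of hne hF hOK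
  have hlong := long hne hF hOK hNx S ho hao
  set m := ((c :: cs).getD 0 dc).x.length with hm
  have h1 : m ≤ Nat.log 2 (Nat.log 2 (flat (c :: cs)).length) := by
    have h2 : 2 ^ 2 ^ m ≤ (flat (c :: cs)).length := hlong.trans (flat_len _)
    have h3 : 2 ^ m ≤ Nat.log 2 (flat (c :: cs)).length := by
      rw [← Nat.log_pow (show 1 < 2 by norm_num) (2 ^ m)]
      exact Nat.log_mono_right h2
    rw [← Nat.log_pow (show 1 < 2 by norm_num) m]
    exact Nat.log_mono_right h3
  have hb := hb_init (h := m) (c :: cs) (fun d hd => by
    obtain ⟨k, hk, hkd⟩ := List.getElem_of_mem hd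
    have hk2 : (c :: cs).getD k dc = d := by
      rw [← hkd]; exact List.getD_eq_getElem _ _ hk
    have h4 := hOK k hk
    have h5 := S.len k hk
    rw [hk2] at h4 h5
    refine ⟨h4.2.1, h5.le, ?_⟩
    rw [h4.2.2.2.1, List.length_reverse]
    exact h5.le)
  intro c' hc'
  exact (hb c' hc').trans h1

/-! ### The accepted words -/

/-- Binary digits. -/
def bits : ℕ → ℕ → List Bool
  | 0, _ => []
  | m + 1, v => (v % 2 == 1) :: bits m (v / 2)

theorem bits_len (m : ℕ) : ∀ v, (bits m v).length = m := by
  induction m with
  | zero => intro v; rfl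
  | succ m ih => intro v; simp [bits, ih]

theorem bits_val (m : ℕ) : ∀ v, v < 2 ^ m → val (bits m v) = v := by
  induction m with
  | zero => intro v hv; simp at hv; subst hv; rfl
  | succ m ih =>
    intro v hv
    rw [bits, val, ih (v / 2) (by rw [pow_succ] at hv; omega)]
    rcases Nat.mod_two_eq_zero_or_one v with h | h <;> simp [h] <;> omega

theorem inc_bits {m i : ℕ} (hi : i < 2 ^ m) :
    inc (bits m i) true = (bits m ((i + 1) % 2 ^ m), decide ((i + 1) % 2 ^ m = 0)) := by
  have h1 := inc_len (bits m i) true
  have h2 := inc_val (bits m i) true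
  have h3 := val_lt (inc (bits m i) true).1
  rw [bits_len] at h1 h2
  rw [h1] at h3
  rw [bits_val m i hi] at h2
  simp only [Bool.toNat_true] at h2
  have h4 := toNat_le (inc (bits m i) true).2
  have hmod := Nat.mod_lt (i + 1) (show 0 < 2 ^ m by positivity)
  have key : val (inc (bits m i) true).1 = (i + 1) % 2 ^ m ∧
      (inc (bits m i) true).2 = decide ((i + 1) % 2 ^ m = 0) := by
    by_cases he : i + 1 = 2 ^ m
    · rw [he, Nat.mod_self]
      cases hz : (inc (bits m i) true).2 with
      | true =>
        rw [hz] at h2
        simp only [Bool.toNat_true, Nat.mul_one] at h2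
        exact ⟨by omega, by simp⟩
      | false =>
        rw [hz] at h2
        simp only [Bool.toNat_false, Nat.mul_zero, Nat.add_zero] at h2
        omega
    · rw [Nat.mod_eq_of_lt (by omega)]
      cases hz : (inc (bits m i) true).2 with
      | true =>
        rw [hz] at h2
        simp only [Bool.toNat_true, Nat.mul_one] at h2
        omega
      | false =>
        rw [hz] at h2
        simp only [Bool.toNat_false, Nat.mul_zero, Nat.add_zero] at h2
        exact ⟨by omega, by simp⟩
  apply Prod.ext
  · apply val_inj
    · rw [h1, bits_len]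
    · rw [key.1, bits_val _ _ hmod]
  · exact key.2

theorem testBit_succ_xor (i : ℕ) : ∀ t : ℕ,
    (t + 1).testBit i = xor (t.testBit i) (decide (∀ j < i, t.testBit j = true)) := by
  induction i with
  | zero =>
    intro t
    simp only [Nat.testBit_zero, Nat.not_lt_zero, false_imp_iff, implies_true, decide_true]
    rcases Nat.mod_two_eq_zero_or_one t with h | h
    · have : (t + 1) % 2 = 1 := by omega
      simp [h, this]
    · have : (t + 1) % 2 = 0 := by omega
      simp [h, this]
  | succ i ih =>
    intro t
    have hall : (∀ j < i + 1, t.testBit j = true) ↔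
        t.testBit 0 = true ∧ ∀ j < i, (t / 2).testBit j = true := by
      constructor
      · intro h
        refine ⟨h 0 (by omega), fun j hj => ?_⟩
        rw [← Nat.testBit_succ]
        exact h (j + 1) (by omega)
      · rintro ⟨h1, h2⟩ j hj
        cases j with
        | zero => exact h1
        | succ j => rw [Nat.testBit_succ]; exact h2 j (by omega)
    rw [Nat.testBit_succ, Nat.testBit_succ]
    rcases Nat.mod_two_eq_zero_or_one t with h | h
    · have e1 : (t + 1) / 2 = t / 2 := by omega
      have e2 : t.testBit 0 = false := by rw [Nat.testBit_zero]; simp [h]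
      have e3 : ¬ (∀ j < i + 1, t.testBit j = true) := by
        rw [hall, e2]; simp
      rw [e1, decide_eq_false e3]
      simp
    · have e1 : (t + 1) / 2 = t / 2 + 1 := by omega
      have e2 : t.testBit 0 = true := by rw [Nat.testBit_zero]; simp [h]
      have e3 : (∀ j < i + 1, t.testBit j = true) ↔ ∀ j < i, (t / 2).testBit j = true := by
        rw [hall, e2]; simp
      rw [e1, ih, decide_eq_decide.2 e3]

/-- Fields of the cell number `k` for label length `m`. -/
def fldOf (m k : ℕ) : Fld where
  bit := (k / 2 ^ m).testBit (k % 2 ^ m)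
  cy := decide (∀ j < k % 2 ^ m, (k / 2 ^ m).testBit j = true)
  z := decide (k % 2 ^ m = 0)
  o := decide (k % 2 ^ m = 2 ^ m - 1)
  fb := decide (k / 2 ^ m = 0)
  ao := decide (∀ j < k % 2 ^ m + 1, (k / 2 ^ m).testBit j = true)

/-- Cell number `k` for label length `m`. -/
def cellOf (m k : ℕ) : Cell := ⟨fldOf m k, bits m (k % 2 ^ m), (bits m (k % 2 ^ m)).reverse⟩

theorem all_succ (t i : ℕ) : decide (∀ j < i + 1, t.testBit j = true) =
    (decide (∀ j < i, t.testBit j = true) && t.testBit i) := by
  have h : (∀ j < i + 1, t.testBit j = true) ↔ (∀ j < i, t.testBit j = true) ∧ t.testBit i = true :=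
    ⟨fun h => ⟨fun j hj => h j (by omega), h i (by omega)⟩, fun h j hj => by
      rcases Nat.lt_succ_iff_lt_or_eq.1 hj with h1 | h1
      · exact h.1 j h1
      · rw [h1]; exact h.2⟩
  rw [Bool.eq_iff_iff, decide_eq_true_iff, Bool.and_eq_true, decide_eq_true_iff]
  exact h

theorem loc_fld (m k : ℕ) : Loc (fldOf m k) = true := by
  simp only [Loc, fldOf, Bool.and_eq_true, Bool.or_eq_true, Bool.not_eq_true']
  constructor
  · by_cases h : k / 2 ^ m = 0
    · right; rw [h]; simp
    · left; simp [h]
  · by_cases h : k % 2 ^ m = 0
    · right; rw [h]; simp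
    · left; simp [h]

theorem next_fld (m k : ℕ) : Next (fldOf m k) (fldOf m (k + 1)) = true := by
  simp only [Next, Bool.and_eq_true, loc_fld, and_true]
  set N := 2 ^ m with hN
  have hNpos : 0 < N := by positivity
  have hk : k % N < N := Nat.mod_lt _ hNpos
  by_cases h : k % N + 1 = N
  · have e1 : (k + 1) % N = 0 := by
      rw [← Nat.mod_add_mod, h, Nat.mod_self]
    have e2 : (k + 1) / N = k / N + 1 := by
      rw [Nat.succ_div, if_pos (Nat.dvd_of_mod_eq_zero e1)]
    have z1 : (fldOf m (k + 1)).z = true := by simp [fldOf, ← hN, e1]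
    have f1 : (fldOf m (k + 1)).fb = false := by simp [fldOf, ← hN, e2]
    have a1 : (fldOf m (k + 1)).ao = (fldOf m (k + 1)).bit := by
      simp only [fldOf, ← hN, e1]
      rw [all_succ]
      simp
    rw [z1, f1, a1]
    simp
  · have hN2 : 1 < N := by omega
    have e1 : (k + 1) % N = k % N + 1 := by
      rw [Nat.add_mod, Nat.mod_eq_of_lt hN2, Nat.mod_eq_of_lt (by omega)]
    have e2 : (k + 1) / N = k / N := by
      rw [Nat.succ_div, if_neg (fun hd => by
        have := Nat.mod_eq_zero_of_dvd hd; omega), Nat.add_zero]
    have z1 : (fldOf m (k + 1)).z = false := by simp [fldOf, ← hN, e1]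
    have f1 : (fldOf m (k + 1)).fb = (fldOf m k).fb := by simp [fldOf, ← hN, e2]
    have c1 : (fldOf m (k + 1)).cy = ((fldOf m k).cy && (fldOf m k).bit) := by
      simp only [fldOf, ← hN, e1, e2]
      rw [all_succ]
    have a1 : (fldOf m (k + 1)).ao = ((fldOf m k).ao && (fldOf m (k + 1)).bit) := by
      simp only [fldOf, ← hN, e1, e2]
      rw [all_succ]
    rw [z1, f1, c1, a1]
    simp

/-- The list of all cells. -/
def cells (m : ℕ) : List Cell := (List.range (2 ^ m * 2 ^ 2 ^ m)).map (cellOf m)

theorem cells_len (m : ℕ) : (cells m).length = 2 ^ m * 2 ^ 2 ^ m := by simp [cells]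

theorem cells_get {m k : ℕ} (hk : k < (cells m).length) : (cells m).getD k dc = cellOf m k := by
  have hk' := hk
  rw [cells_len] at hk'
  simp [cells, List.getD, hk']

theorem bits_inj {m i j : ℕ} (hi : i < 2 ^ m) (hj : j < 2 ^ m) (h : bits m i = bits m j) :
    i = j := by
  rw [← bits_val m i hi, ← bits_val m j hj, h]

theorem bits_zero (m : ℕ) : ∀ d ∈ bits m 0, d = false := by
  induction m with
  | zero => intro d hd; simp [bits] at hd
  | succ m ih =>
    intro d hd
    simp only [bits, List.mem_cons] at hd
    rcases hd with h | h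
    · rw [h]; rfl
    · exact ih d h

theorem bits_ones (m : ℕ) : ∀ d ∈ bits m (2 ^ m - 1), d = true := by
  induction m with
  | zero => intro d hd; simp [bits] at hd
  | succ m ih =>
    intro d hd
    have e1 : (2 ^ (m + 1) - 1) % 2 = 1 := by
      have : 0 < 2 ^ m := by positivity
      rw [pow_succ]; omega
    have e2 : (2 ^ (m + 1) - 1) / 2 = 2 ^ m - 1 := by
      have : 0 < 2 ^ m := by positivity
      rw [pow_succ]; omega
    simp only [bits, List.mem_cons, e1, e2] at hd
    rcases hd with h | h
    · rw [h]; rfl
    · exact ih d h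

theorem cellOK_cells {m : ℕ} (hm : 1 ≤ m) {k : ℕ} (hk : k < (cells m).length) :
    CellOK ((cells m).getD k dc) ((cells m).drop (k + 1)) := by
  have hNpos : 0 < 2 ^ m := by positivity
  have hkN : k % 2 ^ m < 2 ^ m := Nat.mod_lt _ hNpos
  have hx : bits m (k % 2 ^ m) ≠ [] := by
    intro h
    have := congrArg List.length h
    rw [bits_len] at this
    simp at this
    omega
  rw [cells_get hk]
  refine ⟨hx, by simpa [cellOf] using hx, ?_, rfl, ?_, ?_⟩
  · intro d hd
    simp only [Dig, cellOf, fldOf, Bool.and_eq_true, Bool.or_eq_true, Bool.not_eq_true']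
    constructor
    · by_cases h : k % 2 ^ m = 2 ^ m - 1
      · right
        have hd' : d ∈ bits m (k % 2 ^ m) := hd
        rw [h] at hd'
        exact bits_ones m d hd'
      · left; simp [h]
    · by_cases h : k % 2 ^ m = 0
      · right
        have hd' : d ∈ bits m (k % 2 ^ m) := hd
        rw [h] at hd'
        exact bits_zero m d hd'
      · left; simp [h]
  · by_cases hk1 : k + 1 < (cells m).length
    · rw [drop_eq hk1, SucC, cells_get hk1]
      show inc (bits m (k % 2 ^ m)) true = (bits m ((k + 1) % 2 ^ m), decide ((k + 1) % 2 ^ m = 0))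
      rw [inc_bits hkN, Nat.mod_add_mod]
    · have : (cells m).drop (k + 1) = [] := by rw [List.drop_eq_nil_iff]; omega
      rw [this]
      trivial
  · have hz : ∀ k < (cells m).length, ((cells m).getD k dc).f.z = decide (k % 2 ^ m = 0) := by
      intro k hk
      rw [cells_get hk]
      rfl
    have hV := (V_iff (N := 2 ^ m) hNpos hz (xor (cellOf m k).f.bit (cellOf m k).f.cy)
      (cellOf m k).x.reverse ((cells m).length - (k + 1)) (k + 1) (by omega) (by omega)).2
    rw [hV]
    intro i h1 h2 h3
    simp only [Nat.add_sub_cancel] at h3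
    rw [cells_get h2]
    intro hne hr
    apply hne
    have h4 : bits m (i % 2 ^ m) = bits m (k % 2 ^ m) := by
      have : (bits m (i % 2 ^ m)).reverse = (bits m (k % 2 ^ m)).reverse := hr
      simpa using this
    have h5 := bits_inj (Nat.mod_lt _ hNpos) hkN h4
    show (i / 2 ^ m).testBit (i % 2 ^ m) = xor ((k / 2 ^ m).testBit (k % 2 ^ m))
      (decide (∀ j < k % 2 ^ m, (k / 2 ^ m).testBit j = true))
    rw [h3, h5, testBit_succ_xor]

theorem chain_of_index (cs : List Cell) : ∀ f,
    (∀ k < cs.length, CellOK (cs.getD k dc) (cs.drop (k + 1))) →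
    (∀ k, k + 1 < cs.length → Next (cs.getD k dc).f (cs.getD (k + 1) dc).f = true) →
    (0 < cs.length → Next f (cs.getD 0 dc).f = true) →
    ((if cs = [] then f else (cs.getD (cs.length - 1) dc).f).o = true ∧
      (if cs = [] then f else (cs.getD (cs.length - 1) dc).f).ao = true) → Chain f cs := by
  induction cs with
  | nil => intro f _ _ _ h; simpa [Chain] using h
  | cons c cs ih =>
    intro f h1 h2 h3 h4
    refine ⟨h3 (by simp), h1 0 (by simp), ?_⟩
    apply ih c.f
    · intro k hk
      have := h1 (k + 1) (by simpa using hk)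
      simpa using this
    · intro k hk
      have := h2 (k + 1) (by simpa using hk)
      simpa using this
    · intro hp
      have := h2 0 (by simpa using hp)
      simpa using this
    · rw [if_neg (by simp)] at h4
      cases cs with
      | nil => simpa using h4
      | cons d ds =>
        rw [if_neg (by simp)]
        simpa using h4

theorem mem_lang {m : ℕ} (hm : 1 ≤ m) : flat (cells m) ∈ LL.lang := by
  have hNpos : 0 < 2 ^ m := by positivity
  have hlen := cells_len m
  have hpos : 0 < (cells m).length := by rw [hlen]; positivity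
  obtain ⟨c, cs, hc⟩ := List.exists_cons_of_ne_nil (List.length_pos_iff.1 hpos)
  have hc0 : c = cellOf m 0 := by
    have := cells_get hpos
    rw [hc] at this
    simpa using this
  refine (LL_lang _).2 ⟨c, cs, by rw [hc], ?_, ?_, ?_⟩
  · rw [hc0]
    simp only [First, Bool.and_eq_true, cellOf, loc_fld, and_true]
    simp only [fldOf, Nat.zero_mod, Nat.zero_div]
    simp
  · have := cellOK_cells hm hpos
    rw [hc] at this
    simpa using this
  · have hK : (cells m).length - 1 = 2 ^ m * (2 ^ 2 ^ m - 1) + (2 ^ m - 1) := by
      rw [hlen, Nat.mul_sub, Nat.mul_one]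
      have : 2 ^ m ≤ 2 ^ m * 2 ^ 2 ^ m := Nat.le_mul_of_pos_right _ (by positivity)
      omega
    have hlast : ((cells m).getD ((cells m).length - 1) dc).f.o = true ∧
        ((cells m).getD ((cells m).length - 1) dc).f.ao = true := by
      rw [cells_get (by omega), hK]
      have e1 : (2 ^ m * (2 ^ 2 ^ m - 1) + (2 ^ m - 1)) % 2 ^ m = 2 ^ m - 1 := by
        rw [Nat.mul_comm, mod_aux _ _ _ (by omega)]
      have e2 : (2 ^ m * (2 ^ 2 ^ m - 1) + (2 ^ m - 1)) / 2 ^ m = 2 ^ 2 ^ m - 1 := by
        rw [Nat.mul_add_div hNpos, Nat.div_eq_of_lt (by omega), Nat.add_zero]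
      constructor
      · simp only [cellOf, fldOf, e1]; simp
      · simp only [cellOf, fldOf, e1, e2]
        rw [decide_eq_true_iff]
        intro j hj
        rw [Nat.testBit_two_pow_sub_one]
        simp; omega
    apply chain_of_index
    · intro k hk
      have := cellOK_cells hm (k := k + 1) (by rw [hc]; simpa using hk)
      rw [hc] at this
      simpa using this
    · intro k hk
      have hk2 : k + 2 < (cells m).length := by rw [hc]; simp only [List.length_cons]; omega
      have h1 := cells_get (show k + 1 < (cells m).length by omega)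
      have h2 := cells_get hk2
      rw [hc] at h1 h2
      have h3 := next_fld m (k + 1)
      have e1 : cs.getD k dc = cellOf m (k + 1) := by simpa using h1
      have e2 : cs.getD (k + 1) dc = cellOf m (k + 2) := by simpa using h2
      rw [e1, e2]
      exact h3
    · intro hp
      have hk2 : 1 < (cells m).length := by rw [hc]; simp only [List.length_cons]; omega
      have h2 := cells_get hk2
      rw [hc] at h2
      have e2 : cs.getD 0 dc = cellOf m 1 := by simpa using h2
      rw [e2, hc0]
      exact next_fld m 0
    · cases cs with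
      | nil =>
        rw [hc] at hlast
        simpa using hlast
      | cons d ds =>
        rw [hc] at hlast
        rw [if_neg (by simp)]
        simpa using hlast

/-! ### Nonregularity -/

/-- The letter is a label digit. -/
def isL : Let → Bool
  | .l _ => true
  | _ => false

/-- The letter is a digit of a reversed label. -/
def isR : Let → Bool
  | .r _ => true
  | _ => false

theorem tw_l (x : List Bool) (y : List Let) (hy : y.takeWhile isL = []) :
    (x.map Let.l ++ y).takeWhile isL = x.map Let.l ∧ (x.map Let.l ++ y).dropWhile isL = y := by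
  induction x with
  | nil =>
    refine ⟨hy, ?_⟩
    cases y with
    | nil => rfl
    | cons a y =>
      by_cases h : isL a = true
      · simp [List.takeWhile_cons, h] at hy
      · simp [List.dropWhile_cons, h]
  | cons d x ih =>
    rw [List.map_cons, List.cons_append]
    exact ⟨(List.takeWhile_cons_of_pos rfl).trans (by rw [ih.1]),
      (List.dropWhile_cons_of_pos rfl).trans ih.2⟩

theorem tw_r (x : List Bool) (y : List Let) (hy : y.takeWhile isR = []) :
    (x.map Let.r ++ y).takeWhile isR = x.map Let.r := by
  induction x with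
  | nil => exact hy
  | cons d x ih =>
    rw [List.map_cons, List.cons_append]
    exact (List.takeWhile_cons_of_pos rfl).trans (by rw [ih])

theorem tw_flat (cs : List Cell) : (flat cs).takeWhile isR = [] := by
  cases cs with
  | nil => rfl
  | cons c cs => simp [flat, isR]

theorem tw_flat' (r : List Bool) (hr : r ≠ []) (y : List Let) :
    (r.map Let.r ++ y).takeWhile isL = [] := by
  obtain ⟨d, r', rfl⟩ := List.exists_cons_of_ne_nil hr
  simp [isL]

/-- Fields of the first cell. -/
def f0 : Fld := ⟨false, true, true, false, true, false⟩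

theorem fld_zero {m : ℕ} (hm : 1 ≤ m) : fldOf m 0 = f0 := by
  have h2 : 2 ≤ 2 ^ m := by
    calc 2 = 2 ^ 1 := rfl
      _ ≤ 2 ^ m := Nat.pow_le_pow_right (by norm_num) hm
  have h3 : (0 : ℕ) ≠ 2 ^ m - 1 := by omega
  have ha : ¬ (∀ j < 0 + 1, (0 : ℕ).testBit j = true) := by
    intro h; simpa using h 0 (by norm_num)
  apply Fld.ext
  · simp [fldOf, f0]
  · simp [fldOf, f0]
  · simp [fldOf, f0]
  · simp [fldOf, f0, h3]
  · simp [fldOf, f0]
  · simp only [fldOf, f0, Nat.zero_mod, Nat.zero_div]
    exact decide_eq_false ha

theorem bits_zero_eq (m : ℕ) : bits m 0 = List.replicate m false := by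
  apply List.eq_replicate_iff.2
  exact ⟨bits_len m 0, bits_zero m⟩

theorem LL_nonregular : ¬ LL.lang.IsRegular := by
  apply not_regular_of
    (fun m => Let.hd f0 :: (List.replicate m false).map Let.l)
    (fun m => (List.replicate m false).map Let.r ++ flat ((cells m).drop 1))
  · intro m hm
    have h := mem_lang hm
    have hpos : 0 < (cells m).length := by rw [cells_len]; positivity
    obtain ⟨c, cs, hc⟩ := List.exists_cons_of_ne_nil (List.length_pos_iff.1 hpos)
    have hc0 : c = cellOf m 0 := by
      have := cells_get hpos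
      rw [hc] at this
      simpa using this
    rw [hc, flat, Cell.body, hc0] at h
    have e1 : (cellOf m 0).f = f0 := fld_zero hm
    have e2 : (cellOf m 0).x = List.replicate m false := by
      show bits m (0 % 2 ^ m) = _
      rw [Nat.zero_mod, bits_zero_eq]
    have e3 : (cellOf m 0).r = List.replicate m false := by
      show (bits m (0 % 2 ^ m)).reverse = _
      rw [Nat.zero_mod, bits_zero_eq, List.reverse_replicate]
    rw [e1, e2, e3] at h
    rw [hc, List.drop_one, List.tail_cons, List.cons_append, ← List.append_assoc]
    exact h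
  · intro i j hi hj h
    obtain ⟨c, cs, hw, -, hok, -⟩ := (LL_lang _).1 h
    simp only [flat, Cell.body, List.cons_append, List.append_assoc, List.cons.injEq] at hw
    have hw2 := hw.2
    have hri : (List.replicate i false : List Bool) ≠ [] := by
      intro h0
      have := congrArg List.length h0
      simp at this
      omega
    have t1 := tw_l (List.replicate j false) ((List.replicate i false).map Let.r ++
      flat ((cells i).drop 1)) (tw_flat' _ hri _)
    have t2 := tw_l c.x (c.r.map Let.r ++ flat cs) (tw_flat' _ hok.2.1 _)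
    have hj' : j = c.x.length := by
      have := congrArg (fun l : List Let => (l.takeWhile isL).length) hw2
      beta_reduce at this
      rw [t1.1, t2.1] at this
      simpa using this
    have hi' : i = c.r.length := by
      have := congrArg (fun l : List Let => ((l.dropWhile isL).takeWhile isR).length) hw2
      beta_reduce at this
      rw [t1.2, t2.2, tw_r _ _ (tw_flat _), tw_r _ _ (tw_flat _)] at this
      simpa using this
    rw [hi', hj', hok.2.2.2.1, List.length_reverse]

end Q222.PS
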